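import Pool.Agent.Lib.MP_efe47c_gt.C.Li

/-! Auxiliary facts: the sphere near the pole, differentiable contact germs. -/

namespace Pool.Agent.Lib.MP_efe47c_gt.C
open Set Filter Topology Complex Function
open scoped ContDiff ComplexConjugate Manifold

noncomputable section

def UA : C3 ≃ₗᵢ[ℂ] C3 := LinearIsometryEquiv.piLpCongrRight 2
  ![LinearIsometryEquiv.neg ℂ, LinearIsometryEquiv.refl ℂ ℂ, LinearIsometryEquiv.refl ℂ ℂ]

theorem UA_eq (z : C3) : UA.symm z 0 = -z 0 ∧ UA.symm z 1 = z 1 ∧ UA.symm z 2 = z 2 :=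
  ⟨rfl, rfl, rfl⟩

theorem kap_iv {h : H} (h0 : h ≠ 0) : kap U0 (iv h) = kap UA h := by
  have g := (gau_pos h0).ne'
  have z : conj (ze 1 h) ≠ 0 := (map_ne_zero _).2 (ze_ne one_ne_zero h0)
  have z' : ze 1 h ≠ 0 := ze_ne one_ne_zero h0
  have d := den_ne h
  have d' : conj (ze 1 h) + 1 ≠ 0 := by rwa [add_comm]
  have e1 : (gau h : ℂ) = ze 1 h * conj (ze 1 h) := by rw [mul_conj, nsq_ze]
  have e2 : conj (ze 1 (iv h)) = (conj (ze 1 h))⁻¹ := by
    rw [inv_def, conj_conj, normSq_conj, nsq_ze]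
    apply Complex.ext
    · simp [rho_iv h0, div_eq_mul_inv, g]
    · simp [iv, sc, div_eq_mul_inv, g]
  have e3 : cu (iv h) = conj (ze 1 h) * cu h := by
    rw [cu, cu, e2]; field_simp; ring
  refine Subtype.ext ?_
  change k0 (iv h) = UA.symm (k0 h)
  obtain ⟨a0, a1, a2⟩ := UA_eq (k0 h)
  ext i
  fin_cases i
  · refine Eq.trans ?_ a0.symm
    change 2 * cu (iv h) - 1 = -(2 * cu h - 1)
    rw [e3, cu]; field_simp; ring
  · refine Eq.trans ?_ a1.symm
    change 2 * cu (iv h) * (ze 1 h / gau h * h.1) = 2 * cu h * h.1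
    rw [e3, e1]; field_simp
  · refine Eq.trans ?_ a2.symm
    change 2 * cu (iv h) * (ze 1 h / gau h * h.2.1) = 2 * cu h * h.2.1
    rw [e3, e1]; field_simp

theorem kap_zero : kap UA 0 = pole U0 := by
  refine Subtype.ext ?_
  change UA.symm (k0 0) = WithLp.toLp 2 ![-1, 0, 0]
  obtain ⟨a0, a1, a2⟩ := UA_eq (k0 0)
  ext i
  fin_cases i
  · refine a0.trans ?_
    simp [cu, ze, rho]
    norm_num
  · exact a1.trans (by simp)
  · exact a2.trans (by simp)

theorem uc_kap : UniformContinuous (kap U0) := by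
  refine (continuous_iff_continuousAt.2 fun h => (LD_kap h).cont).uniformContinuous_of_tendsto_cocompact
    (x := pole U0) ?_
  have := (LD_kap (U := UA) 0).cont.tendsto.comp iv_top
  rw [kap_zero] at this
  refine this.congr' ?_
  filter_upwards [(isCompact_singleton (x := (0 : H))).compl_mem_cocompact] with h hh
  rw [comp_apply, ← kap_iv (iv_ne hh), iv_iv hh]

section
variable {E F G : Type} [NormedAddCommGroup E] [NormedSpace ℝ E] [NormedAddCommGroup F]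
  [NormedSpace ℝ F] [NormedAddCommGroup G] [NormedSpace ℝ G]
  {M N P : Type} [TopologicalSpace M] [ChartedSpace E M] [TopologicalSpace N] [ChartedSpace F N]
  [TopologicalSpace P] [ChartedSpace G P]
  {α : M → E → ℝ} {β : N → F → ℝ} {γ : P → G → ℝ} {f f' : M → N} {g : N → P} {x : M}

/-- Differentiable at `x`, pulling `β` back to a positive multiple of `α` there. -/
def WD (α : M → E → ℝ) (β : N → F → ℝ) (f : M → N) (x : M) : Prop :=
  MDifferentiableAt 𝓘(ℝ, E) 𝓘(ℝ, F) f x ∧ ∃ c : ℝ, 0 < c ∧ ∀ v, β (f x) (D E F f x v) = c * α x v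

theorem LD_wd (h : LD α β f x) : WD α β f x := ⟨h.sm.md, h.cf⟩

theorem D_comp' (hg : MDifferentiableAt 𝓘(ℝ, F) 𝓘(ℝ, G) g (f x))
    (hf : MDifferentiableAt 𝓘(ℝ, E) 𝓘(ℝ, F) f x) (v : E) :
    D E G (fun y => g (f y)) x v = D F G g (f x) (D E F f x v) := by
  have := mfderiv_comp x hg hf
  exact congrArg (fun L : TangentSpace 𝓘(ℝ, E) x →L[ℝ] TangentSpace 𝓘(ℝ, G) (g (f x)) => L v) this

theorem WD.comp {y : N} (hg : WD β γ g y) (hf : WD α β f x) (e : f x = y) :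
    WD α γ (fun y => g (f y)) x := by
  subst e
  obtain ⟨c, c0, hc⟩ := hf.2
  obtain ⟨d, d0, hd⟩ := hg.2
  exact ⟨hg.1.comp x hf.1, d * c, mul_pos d0 c0, fun v => by
    rw [D_comp' hg.1 hf.1, hd, hc, mul_assoc]⟩

theorem WD.congr (h : WD α β f x) (e : f' =ᶠ[𝓝 x] f) : WD α β f' x := by
  obtain ⟨c, c0, hc⟩ := h.2
  exact ⟨h.1.congr_of_eventuallyEq e, c, c0, fun v => by rw [D_congr e, e.eq_of_nhds, hc]⟩

theorem LD_loc (h : LD α β f x) : ∃ u : N → M, LD β α u (f x) ∧ u (f x) = x ∧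
    ∀ᶠ z in 𝓝 (f x), f (u z) = z := by
  obtain ⟨u, -, u2, u3⟩ := h.inv
  exact ⟨u, h.symm u2, u2.self_of_nhds, u3⟩

theorem LD_cancel (h : LD α β f x) (h' : LD α γ (fun y => g (f y)) x) : LD β γ g (f x) := by
  obtain ⟨u, u1, u2, u3⟩ := LD_loc h
  exact (h'.comp' u1 u2).congr (u3.mono fun z hz => by simp only [hz])

theorem WD_cancel (h : LD α β f x) (h' : WD α γ (fun y => g (f y)) x) : WD β γ g (f x) := by
  obtain ⟨u, u1, u2, u3⟩ := LD_loc h
  exact (h'.comp (LD_wd u1) u2).congr (u3.mono fun z hz => by simp only [hz])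

theorem two_sided {a : E → F} {c : F → E} {x : E} (ha : ContDiffAt ℝ ∞ a x)
    (hc : ContDiffAt ℝ ∞ c (a x)) (e : ∀ᶠ y in 𝓝 x, c (a y) = y) : ∃ B, 0 ≤ B ∧ ∀ᶠ y in 𝓝 x, ∀ w,
      ‖fderiv ℝ a y w‖ ≤ B * ‖w‖ ∧ ‖w‖ ≤ B * ‖fderiv ℝ a y w‖ := by
  have n : (∞ : WithTop ℕ∞) ≠ 0 := by simp
  have o : (1 : WithTop ℕ∞) ≤ ∞ := by simp
  set B := ‖fderiv ℝ a x‖ + ‖fderiv ℝ c (a x)‖ + 1
  have p1 := norm_nonneg (fderiv ℝ a x)
  have p2 := norm_nonneg (fderiv ℝ c (a x))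
  refine ⟨B, by positivity, ?_⟩
  filter_upwards [(ha.continuousAt_fderiv n).norm.eventually_lt continuousAt_const
      (show _ < B by linarith),
    ha.continuousAt.eventually ((hc.continuousAt_fderiv n).norm.eventually_lt continuousAt_const
      (show _ < B by linarith)),
    (ha.of_le o).eventually (by simp), ha.continuousAt.eventually ((hc.of_le o).eventually (by simp)),
    e.eventually_nhds] with y h1 h2 h3 h4 h5 w
  refine ⟨(fderiv ℝ a y).le_of_opNorm_le h1.le w, ?_⟩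
  have k : fderiv ℝ (c ∘ a) y = fderiv ℝ id y := EventuallyEq.fderiv_eq h5
  rw [fderiv_comp y (h4.differentiableAt one_ne_zero) (h3.differentiableAt one_ne_zero),
    fderiv_id] at k
  have k2 : fderiv ℝ c (a y) (fderiv ℝ a y w) = w := congrArg (fun L : E →L[ℝ] E => L w) k
  exact (congrArg norm k2).symm.trans_le ((fderiv ℝ c (a y)).le_of_opNorm_le h2.le _)

end

variable {χ : ℝ → ℝ} {K : H ≃ H} {c C C₁ b T : ℝ}

theorem Stop.wd (h : Stop χ C C₁ b) (t : Tub c C K) : WD aH aH (ext χ K) (top b) :=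
  ⟨(h.fd t).differentiableAt.mdifferentiableAt, 1, one_pos, fun v => by
    rw [D_vec, (h.fd t).fderiv, h.fix, one_mul]; rfl⟩

theorem Stop.tend (h : Stop χ C C₁ b) (t : Tub c C K) :
    Tendsto (ext χ K) (𝓝 (top b)) (𝓝 (top b)) := by
  have := (h.fd t).continuousAt.tendsto
  rwa [h.fix] at this

theorem Stop.bilip (h : Stop χ C C₁ b) (t : Tub c C K) (t' : Tub c C K.symm) (c0 : 0 < c)
    (l : ∀ p : H, T ≤ p.2.2 → LH K p) (l' : ∀ p : H, T ≤ p.2.2 → LH K.symm p) :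
    ∃ B, 0 ≤ B ∧ ∀ᶠ q in 𝓝 (top b), DifferentiableAt ℝ (ext χ K) q ∧ ∀ w, aH q w = 0 →
      ‖fderiv ℝ (ext χ K) q w‖ ≤ B * ‖w‖ ∧ ‖w‖ ≤ B * ‖fderiv ℝ (ext χ K) q w‖ := by
  obtain ⟨B, hB⟩ := h.lip t c0 l
  obtain ⟨B', hB'⟩ := h.lip t' c0 l'
  refine ⟨|B| + |B'|, by positivity, ?_⟩
  filter_upwards [hB, (h.tend t).eventually hB'] with q h1 h2
  refine ⟨h1.1, fun w hw => ⟨(h1.2 w hw).2.trans (mul_le_mul_of_nonneg_right
    (by linarith [le_abs_self B, abs_nonneg B']) (norm_nonneg _)), ?_⟩⟩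
  have k : fderiv ℝ (ext χ K.symm ∘ ext χ K) q = fderiv ℝ _root_.id q :=
    EventuallyEq.fderiv_eq (.of_forall (ext_inv h.inc K))
  rw [fderiv_comp q h2.1 h1.1, fderiv_id] at k
  have k2 : fderiv ℝ (ext χ K.symm) (ext χ K q) (fderiv ℝ (ext χ K) q w) = w :=
    congrArg (fun L : H →L[ℝ] H => L w) k
  exact (congrArg norm k2).symm.trans_le ((h2.2 _ (h1.2 w hw).1).2.trans
    (mul_le_mul_of_nonneg_right (by linarith [le_abs_self B', abs_nonneg B]) (norm_nonneg _)))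

end
end Pool.Agent.Lib.MP_efe47c_gt.C
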