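import Pool.Agent.Lib.MP_efe47c_gt.C.En

/-! Explicit reparametrisations of the vertical axis. -/

namespace Pool.Agent.Lib.MP_efe47c_gt.C
open Set Filter Topology Function
open scoped ContDiff

noncomputable section

variable {C C₁ b : ℝ} {χ : ℝ → ℝ}

theorem hd_isq {s : ℝ} (h : 0 < s) : HasDerivAt (fun s => (√s)⁻¹) (-(1 / (2 * √s ^ 3))) s := by
  have r := Real.sqrt_pos.2 h
  refine ((Real.hasDerivAt_sqrt h.ne').inv r.ne').congr_deriv ?_
  field_simp

theorem exists_stop (C0 : 0 ≤ C) (h1 : 1 ≤ C₁) : ∃ χ, Stop χ C C₁ (C₁ + 2) := by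
  set β : ℝ → ℝ := fun s => Real.smoothTransition (s - C₁) with hβ
  have cβ : ContDiff ℝ ∞ β := Real.smoothTransition.contDiff.comp (contDiff_id.sub contDiff_const)
  have mβ : Monotone β := Real.smoothTransition.monotone.comp fun a b h => sub_le_sub_right h _
  set g : ℝ → ℝ := fun s => C₁ + 2 - (√s)⁻¹ with hg
  set χ : ℝ → ℝ := fun s => s + β s * (g s - s) with hχ
  have lo : ∀ s ≤ C₁, χ s = s := fun s hs => by
    simp [hχ, hβ, Real.smoothTransition.zero_of_nonpos (sub_nonpos.2 hs)]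
  have hi : ∀ s, C₁ + 1 ≤ s → χ s = g s := fun s hs => by
    simp [hχ, hβ, Real.smoothTransition.one_of_one_le (show 1 ≤ s - C₁ by linarith)]
  have dg : ∀ s, 0 < s → HasDerivAt g (1 / (2 * √s ^ 3)) s := fun s hs => by
    simpa using (hd_isq hs).const_sub (C₁ + 2)
  have d1 : ∀ s, C₁ + 1 < s → deriv χ s = 1 / (2 * √s ^ 3) := fun s hs => by
    rw [EventuallyEq.deriv_eq (f := g) ((eventually_gt_nhds hs).mono fun u hu => hi u hu.le),
      (dg s (by linarith)).deriv]
  have inc : Inc χ := by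
    refine ⟨contDiff_iff_contDiffAt.2 fun s => ?_, fun s => ?_⟩
    · rcases lt_or_ge s C₁ with a | a
      · exact contDiffAt_id.congr_of_eventuallyEq
          ((eventually_lt_nhds a).mono fun u hu => lo u hu.le)
      · have s0 : 0 < s := by linarith
        exact contDiffAt_id.add (cβ.contDiffAt.mul ((contDiffAt_const.sub
          ((Real.contDiffAt_sqrt s0.ne').inv (Real.sqrt_pos.2 s0).ne')).sub contDiffAt_id))
    rcases lt_or_ge s C₁ with a | a
    · rw [EventuallyEq.deriv_eq (f := fun s => s)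
        ((eventually_lt_nhds a).mono fun u hu => lo u hu.le)]
      simp
    have s0 : 0 < s := by linarith
    have r := Real.sqrt_pos.2 s0
    rcases lt_or_ge (C₁ + 1) s with a' | a'
    · rw [d1 s a']; positivity
    have d : HasDerivAt χ (1 + (deriv β s * (g s - s) + β s * (1 / (2 * √s ^ 3) - 1))) s :=
      (hasDerivAt_id s).add ((cd_diff cβ.contDiffAt).hasDerivAt.mul ((dg s s0).sub (hasDerivAt_id s)))
    have r1 : (√s)⁻¹ ≤ 1 := inv_le_one_of_one_le₀ (Real.one_le_sqrt.2 (by linarith))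
    have k1 : 0 ≤ deriv β s * (g s - s) := mul_nonneg mβ.deriv_nonneg (by simp only [hg]; linarith)
    have k2 : 0 ≤ β s := Real.smoothTransition.nonneg _
    have k3 : β s ≤ 1 := Real.smoothTransition.le_one _
    have k4 : 0 < 1 / (2 * √s ^ 3) := by positivity
    rw [d.deriv]
    rcases k3.lt_or_eq with k | k
    · nlinarith [mul_nonneg k2 k4.le]
    · rw [k]; linarith
  have lim : Tendsto χ atTop (𝓝 (C₁ + 2)) := by
    have := (tendsto_inv_atTop_zero.comp Real.tendsto_sqrt_atTop).const_sub (C₁ + 2)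
    rw [sub_zero] at this
    exact this.congr' ((eventually_ge_atTop (C₁ + 1)).mono fun s hs => (hi s hs).symm)
  have cmp : ∀ s, 2 * C + C₁ + 2 ≤ s → ∀ u, |u - s| ≤ C → deriv χ u ≤ 4 / √s ^ 3 := by
    intro s hs u hu
    have hu' := abs_le.1 hu
    have r := Real.sqrt_pos.2 (show 0 < s by linarith)
    have r' := Real.sqrt_pos.2 (show 0 < u by linarith)
    have k : √s ≤ 2 * √u := Real.sqrt_le_iff.2 ⟨by positivity, by
      rw [mul_pow, Real.sq_sqrt (by linarith)]; linarith⟩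
    have := pow_le_pow_left₀ r.le k 3
    rw [d1 u (by linarith), div_le_div_iff₀ (by positivity) (by positivity)]
    linarith
  refine ⟨χ, inc, lo, fun s => (inc.mono (lt_add_one s)).trans_le
    (inc.mono.monotone.ge_of_tendsto lim _), lim, fun η η0 => ?_, 8, 2 * C + C₁ + 2, by norm_num,
    fun s hs => ⟨?_, fun u hu => ?_⟩⟩
  · refine ⟨max (2 * C + C₁ + 2) ((4 / η ^ 2) ^ 2), fun s hs u hu => ?_⟩
    have a := le_of_max_le_left hs
    have r := Real.sqrt_pos.2 (show 0 < s by linarith)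
    have k : 4 / η ^ 2 ≤ √s := Real.le_sqrt_of_sq_le (le_of_max_le_right hs)
    refine (cmp s a u hu).trans ?_
    rw [hi s (by linarith), hg]
    rw [div_le_iff₀ (by positivity)] at k ⊢
    have e : (η * (C₁ + 2 - (C₁ + 2 - (√s)⁻¹))) ^ 2 * √s ^ 3 = √s * η ^ 2 := by
      field_simp; ring
    exact e ▸ k
  · have s0 : 0 < s := by linarith
    have r := Real.sqrt_pos.2 s0
    have r1 : 1 ≤ √s := Real.one_le_sqrt.2 (by linarith)
    have d : HasDerivAt (fun s => (1 / 2) * (√s)⁻¹ ^ 3) (-(3 / (4 * √s ^ 5))) s := by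
      refine (((hd_isq s0).pow 3).const_mul (1 / 2)).congr_deriv ?_
      simp only [Nat.cast_ofNat, Nat.add_one_sub_one]
      field_simp
      ring
    rw [EventuallyEq.deriv_eq (f := fun s => (1 / 2) * (√s)⁻¹ ^ 3)
      ((eventually_gt_nhds (show C₁ + 1 < s by linarith)).mono fun u hu => by
        rw [d1 u hu]; field_simp), d.deriv, d1 s (by linarith), abs_neg,
      abs_of_pos (by positivity), mul_one_div, div_le_div_iff₀ (by positivity) (by positivity)]
    have : √s ^ 3 ≤ √s ^ 5 := pow_le_pow_right₀ r1 (by norm_num)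
    nlinarith [pow_pos r 3]
  · refine (cmp s hs u hu).trans_eq ?_
    rw [d1 s (by linarith)]
    have r := Real.sqrt_pos.2 (show 0 < s by linarith)
    field_simp
    ring

theorem exists_ramp : ∃ ψ : ℝ → ℝ, ContDiff ℝ ∞ ψ ∧ (∀ s ≤ 0, ψ s = 0) ∧
    (∀ s, 0 ≤ deriv ψ s ∧ deriv ψ s ≤ 1) ∧ Tendsto ψ atTop atTop := by
  set ψ : ℝ → ℝ := fun s => s * Real.smoothTransition s with hψ
  have c : ContDiff ℝ ∞ ψ := contDiff_id.mul Real.smoothTransition.contDiff
  have lo : ∀ s ≤ 0, ψ s = 0 := fun s hs => by simp [hψ, Real.smoothTransition.zero_of_nonpos hs]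
  have hi : ∀ s, 1 ≤ s → ψ s = s := fun s hs => by simp [hψ, Real.smoothTransition.one_of_one_le hs]
  have m : Monotone ψ := fun s u h => by
    rcases le_total s 0 with a | a
    · rw [lo s a]
      rcases le_total u 0 with a' | a'
      · rw [lo u a']
      · exact mul_nonneg a' (Real.smoothTransition.nonneg _)
    · exact mul_le_mul h (Real.smoothTransition.monotone h) (Real.smoothTransition.nonneg _)
        (a.trans h)
  obtain ⟨A, hA⟩ := (isCompact_Icc (a := (0 : ℝ)) (b := 1)).bddAbove_image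
    (cd_deriv c).continuous.continuousOn
  have A0 : 0 < |A| + 1 := by positivity
  refine ⟨fun s => (|A| + 1)⁻¹ * ψ s, contDiff_const.mul c, fun s hs => by simp only [lo s hs, mul_zero],
    fun s => ?_, Tendsto.const_mul_atTop (inv_pos.2 A0)
      (tendsto_id.congr' ((eventually_ge_atTop 1).mono fun s hs => (hi s hs).symm))⟩
  rw [deriv_const_mul_field]
  refine ⟨mul_nonneg (inv_pos.2 A0).le m.deriv_nonneg, ?_⟩
  rw [inv_mul_le_iff₀ A0, mul_one]
  have := abs_nonneg A
  rcases lt_or_ge s 0 with a | a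
  · rw [EventuallyEq.deriv_eq (f := fun _ => 0) ((eventually_lt_nhds a).mono fun u hu => lo u hu.le)]
    simpa using A0.le
  rcases lt_or_ge 1 s with a' | a'
  · rw [EventuallyEq.deriv_eq (f := fun s => s) ((eventually_gt_nhds a').mono fun u hu => hi u hu.le)]
    simp
  · linarith [hA ⟨s, ⟨a, a'⟩, rfl⟩, le_abs_self A]

theorem Stop.approx (h : Stop χ C C₁ b) : ∃ X : ℕ → ℝ → ℝ, (∀ n, Inc (X n)) ∧
    (∀ n, Surjective (X n)) ∧ (∀ n : ℕ, ∀ s ≤ C₁ + n, X n s = χ s) ∧
    ∀ (n : ℕ) s, deriv (X n) s ≤ deriv χ s + 1 / (n + 1) := by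
  obtain ⟨ψ, c, lo, d, l⟩ := exists_ramp
  set X : ℕ → ℝ → ℝ := fun n s => χ s + 1 / (n + 1) * ψ (s - (C₁ + n)) with hX
  have p : ∀ n : ℕ, (0 : ℝ) < 1 / (n + 1) := fun n => by positivity
  have dX : ∀ (n : ℕ) s, deriv (X n) s = deriv χ s + 1 / (n + 1) * deriv ψ (s - (C₁ + n)) :=
    fun n s => ((h.inc.hd s).add ((HasDerivAt.comp_sub_const s _
      (cd_diff c.contDiffAt).hasDerivAt).const_mul _)).deriv
  have cX : ∀ n, ContDiff ℝ ∞ (X n) := fun n =>
    h.inc.1.add (contDiff_const.mul (c.comp (contDiff_id.sub contDiff_const)))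
  have e : ∀ n : ℕ, ∀ s ≤ C₁ + n, X n s = χ s := fun n s hs => by
    simp [hX, lo _ (sub_nonpos.2 hs)]
  refine ⟨X, fun n => ⟨cX n, fun s => ?_⟩, fun n => (cX n).continuous.surjective ?_ ?_, e,
    fun n s => ?_⟩
  · rw [dX]
    exact add_pos_of_pos_of_nonneg (h.inc.2 s) (mul_nonneg (p n).le (d _).1)
  · exact h.lim.add_atTop
      ((l.comp (tendsto_atTop_add_const_right _ _ tendsto_id)).const_mul_atTop (p n))
  · refine tendsto_id.congr' ((eventually_le_atBot C₁).mono fun s hs => ?_)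
    rw [e n s (by linarith [n.cast_nonneg (α := ℝ)]), h.id s hs]
    rfl
  · rw [dX]
    linarith [mul_le_of_le_one_right (p n).le (d (s - (C₁ + n))).2]

end
end Pool.Agent.Lib.MP_efe47c_gt.C
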