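import Pool.Agent.Lib.MP_efe47c_gt.C.Sw

/-! Reduction to the swindle, keeping the chart at the marked point. -/

namespace Pool.Agent.Lib.MP_efe47c_gt.C
open Set Filter Topology Metric Function
open scoped ContDiff Manifold

noncomputable section

variable {E : Type} [NormedAddCommGroup E] [NormedSpace ℝ E] {M : Type} [TopologicalSpace M]
  [ChartedSpace E M] {α : M → E → ℝ} {e : H → M} {J : M → H} {a b : ℝ}

theorem core [T2Space M] [CompactSpace M] (a0 : 0 < a) (a1 : a < 1) (b1 : 1 < b)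
    (he : ∀ p, gau p < b → LD aH α e p) (ie : InjOn e {p | gau p < b})
    (hJ : ∀ m ∈ (e '' {p | gau p ≤ a})ᶜ, LD α aH J m) (iJ : InjOn J (e '' {p | gau p ≤ a})ᶜ)
    {K : Set H} (cK : IsCompact K) (mK : MapsTo J (e '' {p | gau p ≤ a})ᶜ K) :
    Out α (e xo) fun p => e (nu p) := by
  set W := (e '' {p | gau p ≤ a})ᶜ with hW
  have mS : MapsTo e {p | a < gau p ∧ gau p < b} W := by
    rintro p hp ⟨q, hq, eq⟩
    have hq' : gau q ≤ a := hq
    rw [ie (show gau q < b by linarith) hp.2 eq] at hq'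
    exact hp.1.not_ge hq'
  have hx : xo ∈ {p | a < gau p ∧ gau p < b} := ⟨gau_xo ▸ a1, gau_xo ▸ b1⟩
  obtain ⟨J', j1, j2, j3⟩ := morse ((isOpen_lt continuous_const cont_gau).inter
    (isOpen_lt cont_gau continuous_const)) hx (fun p hp => he p hp.2) (ie.mono fun p hp => hp.2)
    mS hJ iJ cK mK
  have oW : IsOpen W := ((cpt_gau a).image_of_continuousOn
    (contOn_of_LD fun p (hp : gau p ≤ a) => he p (by linarith))).isClosed.isOpen_compl
  have x0 : (0 : H) ≠ xo := by simp [xo, Prod.ext_iff]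
  obtain ⟨δ, δ0, δ1, hδ⟩ := gau_basis (s := {p | p ≠ xo ∧ mu p ∈ N2 1}) (inter_mem
    (eventually_ne_nhds x0) ((LH_mu x0).cont.eventually ((open_N2 1).mem_nhds (by
      rw [mu_zero]; norm_num [N2]))))
  obtain ⟨Lb, hLb⟩ := gau_bdd ((cpt_gau 300).image
    (continuous_iff_continuousAt.2 fun p => (LH_tr xo p).cont))
  obtain ⟨Dn, d1, d2, d3⟩ := exists_down (u₂ := (a + 1) / 2) a0 (by linarith) δ0
  obtain ⟨Up, u1, u2, u3⟩ := exists_up (u₁ := (1 + b) / 2) (u₂ := b) (by linarith) (by linarith) Lb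
  set σ : H ≃ H := Dn.trans Up
  have eσ : ∀ p, σ p = Up (Dn p) := fun _ => rfl
  have lσ : ∀ p, LH σ.symm p := fun p => ((u1 _).comp (d1 (σ.symm p))).symm'
    (.of_forall σ.symm_apply_apply) (σ.apply_symm_apply p)
  have σ1 : ∀ᶠ p in 𝓝 xo, σ.symm p = p := by
    have h1 : ∀ᶠ p in 𝓝 xo, (a + 1) / 2 < gau p := continuousAt_const.eventually_lt
      cont_gau.continuousAt (by rw [gau_xo]; linarith)
    have h2 : ∀ᶠ p in 𝓝 xo, gau p < (1 + b) / 2 := cont_gau.continuousAt.eventually_lt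
      continuousAt_const (by rw [gau_xo]; linarith)
    filter_upwards [h1, h2] with p h1 h2
    rw [Equiv.symm_apply_eq, eσ, d2 p h1, u2 p h2]
  have n0 : ∀ p : H, ¬gau p ≤ 1 / 300 → p ≠ 0 := fun p hp e => hp (by rw [e, gau_zero]; norm_num)
  have σ2 : ∀ p, ¬gau p ≤ 1 / 300 → gau (σ.symm (nu p)) < b := fun p hp => by
    by_contra h
    have h1 := not_lt.1 h
    have h2 := u3 _ h1
    rw [← d2 _ (show (a + 1) / 2 < gau (σ.symm (nu p)) by linarith), ← eσ,
      σ.apply_symm_apply] at h2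
    refine (hLb _ ⟨iv p, ?_, rfl⟩).not_ge h2
    change gau (iv p) ≤ 300
    rw [gau_iv (n0 p hp)]
    exact (inv_lt_of_inv_lt₀ (by norm_num) (by linarith [not_le.1 hp])).le
  have sW : ((fun p => e (σ.symm (nu p))) '' (mu '' {p | gau p ≤ δ}) ∪ {e xo})ᶜ ⊆ W := by
    rintro m hm ⟨p, hp, rfl⟩
    have h1 := d3 p hp
    have h2 : σ p = Dn p := u2 _ (by linarith)
    refine hm (Or.inl ⟨mu (σ p), ⟨σ p, h2 ▸ h1, rfl⟩, ?_⟩)
    simp only [nu_mu (hδ _ (h2 ▸ h1)).1, σ.symm_apply_apply]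
  have jx : ∀ m ∈ W, m ≠ e xo → J' m ≠ xo := fun m hm hn h =>
    hn (j2 hm (mS hx) (h.trans j3.self_of_nhds.symm))
  obtain ⟨C, cC, hC⟩ := mem_cocompact.1 (inter_mem (nu_top.eventually (σ1.and j3))
    (isCompact_singleton (x := (0 : H))).compl_mem_cocompact)
  obtain ⟨R, hR⟩ := gau_bdd cC
  have far : ∀ p : H, |R| + 1 < rho p ∨ |R| + 1 ≤ |p.2.2| →
      σ.symm (nu p) = nu p ∧ J' (e (nu p)) = nu p ∧ p ≠ 0 := fun p hp => by
    have : p ∉ C := fun h => by
      have h1 := hR p h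
      have h2 := le_abs_self R
      have h3 := abs_nonneg R
      unfold gau at h1
      rcases hp with hp | hp
      · nlinarith [sq_nonneg p.2.2]
      · nlinarith [sq_nonneg (rho p), sq_abs p.2.2]
    exact ⟨(hC this).1.1, (hC this).1.2, (hC this).2⟩
  suffices h : Out α (e xo) fun p => e (σ.symm (nu p)) by
    obtain ⟨Ψ, K, c, C', c0, tK, h1, h2, h3, h4⟩ := h
    have := tK.1
    have := abs_nonneg R
    refine ⟨Ψ, K, c, C' + (|R| + 1), c0, tK.mono (by linarith), h1, h2,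
      fun p hp => h3 p (by linarith), fun p hp => ?_⟩
    have : Ψ (e (σ.symm (nu p))) = K p := h4 p (hp.imp (fun a => by linarith) fun a => by linarith)
    rwa [(far p (hp.imp (fun a => by linarith) fun a => by linarith)).1] at this
  refine swindle (J := fun m => mu (J' m)) (D₂ := mu '' {p | gau p ≤ δ}) (L := |R| + 1)
    ⟨by positivity, (cpt_gau _).isClosed,
      (cpt_gau δ).image_of_continuousOn (contOn_of_LD fun p hp => LH_mu (hδ p hp).1),
      fun p hp => ?_, ?_,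
      fun p hp => (he _ (σ2 p hp)).comp' ((lσ _).comp' (LH_nu (n0 p hp)) rfl) rfl,
      fun p hp q hq h => ?_, fun p hp h => ?_,
      fun m hm => (LH_mu (jx m (sW hm) fun h => hm (Or.inr h))).comp (j1 m (sW hm)),
      fun m hm m' hm' h => ?_, fun p hp => ?_, ?_, ?_⟩ (by linarith [abs_nonneg R]) fun p hp => ?_
  · have h1 : ‖p‖ < 1 / 4 := norm_lt_small (by norm_num) (by norm_num)
      (lt_of_le_of_lt hp (by norm_num))
    have h2 := (Complex.abs_re_le_norm p.1).trans (norm_fst_le p)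
    have h3 : |p.2.2| ≤ ‖p‖ := (norm_snd_le p.2).trans (norm_snd_le p)
    exact ⟨by linarith [(abs_le.1 h2).1], by linarith [abs_nonneg R]⟩
  · rintro _ ⟨p, hp, rfl⟩
    exact ⟨(hδ p hp).2.1, by linarith [(hδ p hp).2.2, abs_nonneg R]⟩
  · rw [← mu_nu (n0 p hp), ← mu_nu (n0 q hq), σ.symm.injective (ie (σ2 p hp) (σ2 q hq) h)]
  · have := ie (σ2 p hp) hx.2 h
    rw [← σ1.self_of_nhds] at this
    exact nu_ne (n0 p hp) (σ.symm.injective this)
  · refine j2 (sW hm) (sW hm') ?_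
    rw [← nu_mu (jx m (sW hm) fun h => hm (Or.inr h)),
      ← nu_mu (jx m' (sW hm') fun h => hm' (Or.inr h))]
    exact congrArg nu h
  · obtain ⟨h1, h2, h3⟩ := far p (Or.inr hp)
    simp only [h1, h2, mu_nu h3]
  · have h1 := (lσ xo).cont.tendsto
    rw [σ1.self_of_nhds] at h1
    exact (he xo hx.2).cont.tendsto.comp (h1.comp nu_top)
  · refine mu_xo.comp (tendsto_nhdsWithin_iff.2 ⟨?_, ?_⟩)
    · have := (j1 _ (mS hx)).cont.tendsto
      rw [j3.self_of_nhds] at this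
      exact this.mono_left nhdsWithin_le_nhds
    · filter_upwards [self_mem_nhdsWithin, mem_nhdsWithin_of_mem_nhds (oW.mem_nhds (mS hx))]
        with m h1 h2 using jx m h2 h1
  · obtain ⟨h1, h2, h3⟩ := far p (Or.inl hp)
    simp only [h1, h2, mu_nu h3]

end
end Pool.Agent.Lib.MP_efe47c_gt.C
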