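import Pool.Agent.Lib.MP_efe47c_gt.Defs

/-! Contact homeomorphisms onto the standard sphere. -/

namespace Pool.Agent.Lib.MP_efe47c_gt.C
open Set Filter
open scoped Manifold

noncomputable section

section general
variable {E M S : Type} [NormedAddCommGroup E] [NormedSpace ℝ E] [TopologicalSpace M]
  [ChartedSpace E M] [UniformSpace S] [ChartedSpace E S]

/-- `f` pulls `σ` back to a positive multiple of `α` at every point. -/
def Pulls (α : Form E M) (σ : Form E S) (f : M → S) : Prop :=
  ∀ x, ∃ c : ℝ, 0 < c ∧ ∀ v, σ (f x) (mfderiv 𝓘(ℝ, E) 𝓘(ℝ, E) f x v) = c * α x v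

/-- `f` and its inverse are differentiable everywhere, and `f` is contact at every point. -/
def Weak (α : Form E M) (σ : Form E S) (f : M ≃ₜ S) : Prop :=
  MDifferentiable 𝓘(ℝ, E) 𝓘(ℝ, E) f ∧ MDifferentiable 𝓘(ℝ, E) 𝓘(ℝ, E) f.symm ∧ Pulls α σ f

/-- On `U` the map `f` is a uniform limit of contactomorphisms from `U` onto `f '' U`. -/
def Lim (α : Form E M) (σ : Form E S) (f : M → S) (U : Set M) : Prop :=
  ∃ g : ℕ → PD E M S, (∀ n, (g n).source = U ∧ (g n).target = f '' U ∧ Contacto α σ (g n)) ∧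
    TendstoUniformlyOn (fun n => g n) f atTop U

/-- In a Darboux chart around `x`, `f` distorts the function `ρ` of two points by a bounded
factor. -/
def Lip (α : Form E M) (σ : Form E S) (ρ : S → S → ℝ) (f : M → S) (x : M) : Prop :=
  ∃ (d : PD E S M) (B : ℝ), x ∈ d.target ∧ Contacto σ α d ∧ ∀ p ∈ d.source, ∀ q ∈ d.source,
    ρ p q ≤ B * ρ (f (d p)) (f (d q)) ∧ ρ (f (d p)) (f (d q)) ≤ B * ρ p q

/-- `M` is isomorphic to the model `S` as a topological contact manifold. -/
def TopIso (α : Form E M) (σ : Form E S) (ρ : S → S → ℝ) : Prop :=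
  ∃ (f : M ≃ₜ S) (x y : M) (g : PD E M S), x ≠ y ∧ g.source = {x}ᶜ ∧ EqOn f g {x}ᶜ ∧
    Weak α σ f ∧ Lim α σ f {y}ᶜ ∧ Lip α σ ρ f x

end general

/-- The square of the distance of Korányi on the sphere, which is equivalent to the
Carnot-Carathéodory distance of the standard contact structure. -/
def crd (p q : S5) : ℝ := ‖1 - inner ℂ (p : C3) (q : C3)‖

/-- `M` is standard as a topological contact manifold. -/
def TopStd {M : Type} [TopologicalSpace M] [ChartedSpace R5 M] (α : Form R5 M) : Prop :=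
  TopIso α std crd

end
end Pool.Agent.Lib.MP_efe47c_gt.C
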