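import Pool.Agent.Lib.MP_efe47c_gt.C.Mv

/-! Conjugating a tube map so that the tube ends at a finite point. -/

namespace Pool.Agent.Lib.MP_efe47c_gt.C
open Set Filter Topology Complex Function
open scoped ContDiff ComplexConjugate Classical

noncomputable section

def ext (χ : ℝ → ℝ) (G : H → H) (q : H) : H :=
  if q.2.2 ∈ range χ then Th χ (G (invFun (Th χ) q)) else q

variable {χ : ℝ → ℝ} {G : H → H} {K : H ≃ H} {p q : H} {c C C₁ b ε : ℝ}

theorem ext_Th (h : Inc χ) (G : H → H) (p : H) : ext χ G (Th χ p) = Th χ (G p) := by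
  rw [ext, if_pos ⟨p.2.2, rfl⟩, leftInverse_invFun h.inj]

theorem ext_out (G : H → H) (hq : q.2.2 ∉ range χ) : ext χ G q = q := if_neg hq

theorem Inc.cases (h : Inc χ) (q : H) : (∃ p, Th χ p = q) ∨ q.2.2 ∉ Set.range χ := by
  by_cases e : q.2.2 ∈ Set.range χ
  · obtain ⟨s, hs⟩ := e
    exact Or.inl (h.range hs)
  · exact Or.inr e

theorem ext_inv (h : Inc χ) (K : H ≃ H) (q : H) : ext χ K.symm (ext χ K q) = q := by
  rcases h.cases q with ⟨p, rfl⟩ | e
  · rw [ext_Th h, ext_Th h, K.symm_apply_apply]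
  · rw [ext_out _ e, ext_out _ e]

def extE (h : Inc χ) (K : H ≃ H) : H ≃ H :=
  ⟨ext χ K, ext χ K.symm, ext_inv h K, ext_inv h K.symm⟩

theorem Th_congr {χ' : ℝ → ℝ} (e : ∀ᶠ s in 𝓝 p.2.2, χ s = χ' s) : Th χ p = Th χ' p := by
  simp only [Th, sc, la, EventuallyEq.deriv_eq e, e.self_of_nhds]

theorem Tub.rho_le (t : Tub c C K) (hp : rho p ≤ C) : rho (K p) ≤ C := by
  by_contra k
  have := K.injective (t.2.1 _ (Or.inl (not_le.1 k)))
  rw [this] at k
  exact k hp

theorem nz_le (hp : rho p ≤ C) : ‖p.1‖ ≤ C + 1 ∧ ‖p.2.1‖ ≤ C + 1 := by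
  have a1 := normSq_nonneg p.1
  have a2 := normSq_nonneg p.2.1
  have e1 := normSq_eq_norm_sq p.1
  have e2 := normSq_eq_norm_sq p.2.1
  unfold rho at hp
  constructor <;> nlinarith [sq_nonneg (‖p.1‖ - 1), sq_nonneg (‖p.2.1‖ - 1)]

theorem disp (h : Inc χ) (t : Tub c C K) (e0 : 0 ≤ ε) (e1 : ε ≤ 1)
    (hs : ∀ u, |u - p.2.2| ≤ C → deriv χ u ≤ ε ^ 2) :
    ‖Th χ (K p) - Th χ p‖ ≤ (2 * C + 2) * ε := by
  have C0 := t.1
  by_cases hp : C < rho p
  · rw [t.2.1 p (Or.inl hp), sub_self, norm_zero]; positivity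
  have l : ∀ u, |u - p.2.2| ≤ C → ‖(la χ u : ℂ)‖ ≤ ε := fun u hu => by
    rw [norm_real, Real.norm_of_nonneg (h.la_pos u).le]
    exact Real.sqrt_le_iff.2 ⟨e0, hs u hu⟩
  have l1 := l _ (t.2.2.1 p)
  have l2 := l p.2.2 (by simpa using C0)
  have k : ∀ x y : ℂ, ‖x‖ ≤ C + 1 → ‖y‖ ≤ C + 1 →
      ‖(la χ (K p).2.2 : ℂ) * x - la χ p.2.2 * y‖ ≤ (2 * C + 2) * ε := fun x y hx hy => by
    refine (norm_sub_le _ _).trans ?_
    rw [norm_mul, norm_mul]
    have := mul_le_mul l1 hx (norm_nonneg _) e0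
    have := mul_le_mul l2 hy (norm_nonneg _) e0
    linarith
  have n1 := nz_le (not_lt.1 hp)
  have n2 := nz_le (t.rho_le (not_lt.1 hp))
  refine norm_prod_le_iff.2 ⟨k _ _ n2.1 n1.1, norm_prod_le_iff.2 ⟨k _ _ n2.2 n1.2, ?_⟩⟩
  have := Convex.norm_image_sub_le_of_norm_deriv_le (f := χ) (C := ε ^ 2)
    (s := Metric.closedBall p.2.2 C) (fun x _ => (h.hd x).differentiableAt)
    (fun x hx => by rw [Real.norm_of_nonneg (h.2 x).le]; exact hs x hx) (convex_closedBall _ _)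
    (Metric.mem_closedBall_self C0) (t.2.2.1 p)
  refine this.trans ?_
  have := mul_le_mul_of_nonneg_left (t.2.2.1 p) (sq_nonneg ε)
  rw [Real.norm_eq_abs]
  nlinarith [mul_nonneg C0 e0, mul_nonneg (mul_nonneg C0 e0) (sub_nonneg.2 e1)]

theorem LH_ext (h : Inc χ) (l : LH G p) : LH (ext χ G) (Th χ p) := by
  have l1 := (h.lh p).symm (g := invFun (Th χ)) (.of_forall (leftInverse_invFun h.inj))
  refine (((h.lh _).comp l).comp' l1 (leftInverse_invFun h.inj p)).congr ?_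
  filter_upwards [(h.lh p).image_mem univ_mem]
  rintro _ ⟨x, -, rfl⟩
  rw [ext_Th h, leftInverse_invFun h.inj]

theorem LH_low (h : Inc χ) (h0 : ∀ s ≤ C₁, χ s = s) (t : Tub c C K.symm) (hq : q.2.2 < C₁ - C) :
    LH (fun q => ext χ K (K.symm q)) q := by
  refine (LD.refl aH q).congr ?_
  have k : ∀ x : H, x.2.2 < C₁ → Th χ x = x := fun x hx =>
    Th_id ((eventually_lt_nhds hx).mono fun s hs => h0 s hs.le)
  filter_upwards [(cd3 q).continuousAt.eventually_lt continuousAt_const hq] with x hx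
  have := abs_le.1 (t.2.2.1 x)
  have := t.1
  rw [← k (K.symm x) (by linarith), ext_Th h, K.apply_symm_apply, k x (by linarith)]

theorem LH_high (t : Tub c C K.symm) (l : ∀ p : H, C ≤ p.2.2 → LH K p) (hq : 2 * C ≤ q.2.2) :
    C ≤ (K.symm q).2.2 ∧ LH K.symm q := by
  have : C ≤ (K.symm q).2.2 := by linarith [abs_le.1 (t.2.2.1 q)]
  exact ⟨this, (l _ this).symm' (.of_forall K.symm_apply_apply) (K.apply_symm_apply q)⟩

theorem LH_range (h : Inc χ) (h0 : ∀ s ≤ C₁, χ s = s) (t : Tub c C K.symm) (h1 : 3 * C ≤ C₁)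
    (l : ∀ p : H, C ≤ p.2.2 → LH K p) (hq : (K.symm q).2.2 ∈ range χ) :
    LH (fun q => ext χ K (K.symm q)) q := by
  by_cases a : q.2.2 < C₁ - C
  · exact LH_low h h0 t a
  obtain ⟨a1, a2⟩ := LH_high (q := q) t l (by linarith)
  obtain ⟨s, hs⟩ := hq
  obtain ⟨p, hp⟩ := h.range hs
  refine (LH_ext h (l p ?_)).comp' a2 hp.symm
  by_contra k
  have := t.1
  rw [← hp, Th_t, h0 _ (by linarith)] at a1
  exact k a1

/-- A reparametrisation of the axis which ends at height `b`. -/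
structure Stop (χ : ℝ → ℝ) (C C₁ b : ℝ) : Prop where
  inc : Inc χ
  id : ∀ s ≤ C₁, χ s = s
  lt : ∀ s, χ s < b
  lim : Tendsto χ atTop (𝓝 b)
  flat : ∀ η, 0 < η → ∃ S, ∀ s, S ≤ s → ∀ u, |u - s| ≤ C → deriv χ u ≤ (η * (b - χ s)) ^ 2
  reg : ∃ A S, 0 ≤ A ∧ ∀ s, S ≤ s → |deriv (deriv χ) s| ≤ A * deriv χ s ∧
    ∀ u, |u - s| ≤ C → deriv χ u ≤ A * deriv χ s

theorem Stop.range (h : Stop χ C C₁ b) {t : ℝ} (ht : t < b) : t ∈ Set.range χ := by
  refine mem_range_of_exists_le_of_exists_ge h.inc.1.continuous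
    ⟨min t C₁, by rw [h.id _ (min_le_right _ _)]; exact min_le_left _ _⟩ ?_
  exact (h.lim.eventually (eventually_ge_nhds ht)).exists

theorem Stop.nr (h : Stop χ C C₁ b) {t : ℝ} (ht : b ≤ t) : t ∉ Set.range χ := by
  rintro ⟨s, rfl⟩
  exact (h.lt s).not_ge ht

theorem Stop.small (h : Stop χ C C₁ b) (C0 : 0 ≤ C) (e0 : 0 < ε) :
    ∃ S, ∀ s, S ≤ s → deriv χ s ≤ ε := by
  obtain ⟨S, hS⟩ := h.flat (√ε) (Real.sqrt_pos.2 e0)
  obtain ⟨S', hS'⟩ := eventually_atTop.1 (h.lim.eventually (eventually_ge_nhds (sub_one_lt b)))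
  refine ⟨max S S', fun s hs => (hS s (le_of_max_le_left hs) s (by simpa using C0)).trans ?_⟩
  have := hS' s (le_of_max_le_right hs)
  have := h.lt s
  rw [mul_pow, Real.sq_sqrt e0.le]
  exact mul_le_of_le_one_right e0.le (by nlinarith)

theorem Stop.bd (h : Stop χ C C₁ b) (C0 : 0 ≤ C) : ∃ A, 0 < A ∧ ∀ s, deriv χ s ≤ A := by
  obtain ⟨S, hS⟩ := h.small C0 one_pos
  obtain ⟨A, hA⟩ := (isCompact_Icc (a := C₁) (b := S)).bddAbove_image
    (cd_deriv h.inc.1).continuous.continuousOn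
  refine ⟨|A| + 1, by positivity, fun s => ?_⟩
  have := abs_nonneg A
  rcases lt_or_ge s C₁ with a | a
  · rw [EventuallyEq.deriv_eq (f := fun s => s)
      ((eventually_lt_nhds a).mono fun u hu => h.id u hu.le)]
    simp
  rcases le_total s S with a' | a'
  · linarith [hA ⟨s, ⟨a, a'⟩, rfl⟩, le_abs_self A]
  · linarith [hS s a']

/-- The end point of the tube. -/
def top (b : ℝ) : H := (0, 0, b)

theorem Stop.fix (h : Stop χ C C₁ b) (G : H → H) : ext χ G (top b) = top b :=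
  ext_out G (h.nr le_rfl)

theorem Stop.fd (h : Stop χ C C₁ b) (t : Tub c C K) :
    HasFDerivAt (ext χ K) (ContinuousLinearMap.id ℝ H) (top b) := by
  have C0 := t.1
  rw [hasFDerivAt_iff_isLittleO, Asymptotics.isLittleO_iff]
  intro η η0
  set η' := min (η / (2 * C + 2)) 1
  have p0 : 0 < η' := lt_min (by positivity) one_pos
  obtain ⟨S, hS⟩ := h.flat η' p0
  have c3 := (cd3 (top b)).continuousAt
  filter_upwards [continuousAt_const.eventually_lt c3 (h.lt S),
    continuousAt_const.eventually_lt c3 (sub_one_lt b)] with q h1 h2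
  rw [h.fix, ContinuousLinearMap.id_apply, sub_sub_sub_cancel_right]
  rcases h.inc.cases q with ⟨p, rfl⟩ | e
  · have a1 := h.lt p.2.2
    rw [Th_t] at h1 h2
    have m1 : η' ≤ 1 := min_le_right _ _
    have m2 : η' ≤ η / (2 * C + 2) := min_le_left _ _
    rw [le_div_iff₀ (by positivity)] at m2
    rw [ext_Th h.inc]
    refine (disp h.inc t (ε := η' * (b - χ p.2.2)) (by nlinarith) (by nlinarith)
      (hS _ (h.inc.mono.lt_iff_lt.1 h1).le)).trans ?_
    have a2 : |χ p.2.2 - b| ≤ ‖Th χ p - top b‖ :=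
      (norm_snd_le (Th χ p - top b).2).trans (norm_snd_le _)
    rw [abs_sub_comm, abs_of_pos (by linarith)] at a2
    nlinarith
  · rw [ext_out _ e, sub_self, norm_zero]; positivity

theorem Stop.near (h : Stop χ C C₁ b) (t : Tub c C G) (h1 : b ≤ q.2.2) (h2 : q ≠ top b) :
    ∀ᶠ x in 𝓝 q, ext χ G x = x := by
  have c3 := (cd3 q).continuousAt
  have C0 := t.1
  rcases h1.lt_or_eq with a | a
  · filter_upwards [continuousAt_const.eventually_lt c3 a] with x hx using ext_out G (h.nr hx.le)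
  have r0 : 0 < rho q := (rho_nn q).lt_of_ne fun e => h2 (by
    have a1 := normSq_nonneg q.1
    have a2 := normSq_nonneg q.2.1
    unfold rho at e
    exact Prod.ext (normSq_eq_zero.1 (by linarith))
      (Prod.ext (normSq_eq_zero.1 (by linarith)) a.symm))
  obtain ⟨S, hS⟩ := h.small (ε := rho q / 2 / (C + 1)) C0 (by positivity)
  filter_upwards [continuousAt_const.eventually_lt c3 (a ▸ h.lt S),
    continuousAt_const.eventually_lt (cd_rho q).continuousAt (half_lt_self r0)] with x a1 a2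
  rcases h.inc.cases x with ⟨p, rfl⟩ | e
  · have := hS _ (h.inc.mono.lt_iff_lt.1 a1).le
    rw [le_div_iff₀ (by positivity)] at this
    rw [h.inc.rho_Th] at a2
    rw [ext_Th h.inc, t.2.1 p (Or.inl (by nlinarith [h.inc.2 p.2.2]))]
  · exact ext_out G e

theorem Stop.lh (h : Stop χ C C₁ b) (t : Tub c C K) (t' : Tub c C K.symm) (h1 : 3 * C ≤ C₁)
    (l : ∀ p : H, C ≤ p.2.2 → LH K p) (hq : K.symm q ≠ top b) :
    LH (fun q => ext χ K (K.symm q)) q := by
  rcases lt_or_ge (K.symm q).2.2 b with a | a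
  · exact LH_range h.inc h.id t' h1 l (h.range a)
  have := h.lt C₁
  rw [h.id _ le_rfl] at this
  exact ((LD.refl aH _).congr (h.near t a hq)).comp
    (LH_high t' l (by linarith [abs_le.1 (t'.2.2.1 q)])).2

theorem Stop.far (h : Stop χ C C₁ b) (t : Tub c C G) (h1 : 0 ≤ C₁) :
    ∀ᶠ q in cocompact H, ext χ G q = q := by
  have C0 := t.1
  obtain ⟨A, A0, hA⟩ := h.bd C0
  refine mem_of_superset (cpt_gau ((A * C) ^ 2 + (|b| + C) ^ 2)).compl_mem_cocompact
    fun q hq => ?_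
  change ext χ G q = q
  rcases h.inc.cases q with ⟨p, rfl⟩ | e
  · rw [ext_Th h.inc, t.2.1 p]
    by_contra k
    push Not at k
    refine hq (add_le_add (pow_le_pow_left₀ (rho_nn _) ?_ 2) (sq_le_sq' ?_ ?_))
    · rw [h.inc.rho_Th]
      exact mul_le_mul (hA _) k.1 (rho_nn _) A0.le
    · have := h.inc.mono.monotone k.2
      rw [h.id _ (by linarith)] at this
      rw [Th_t]
      linarith [abs_nonneg b]
    · rw [Th_t]
      linarith [h.lt p.2.2, le_abs_self b]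
  · exact ext_out G e

theorem Stop.unif (h : Stop χ C C₁ b) (t : Tub c C K) {X : ℕ → ℝ → ℝ} (i : ∀ n, Inc (X n))
    (sX : ∀ n, Surjective (X n)) (e : ∀ n : ℕ, ∀ s ≤ C₁ + n, X n s = χ s)
    (d : ∀ (n : ℕ) s, deriv (X n) s ≤ deriv χ s + 1 / (n + 1)) :
    TendstoUniformly (fun n => ext (X n) K) (ext χ K) atTop := by
  have C0 := t.1
  rw [Metric.tendstoUniformly_iff]
  intro η η0
  set ε := min (η / (4 * C + 5)) 1
  have p0 : 0 < ε := lt_min (by positivity) one_pos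
  have m1 : ε ≤ 1 := min_le_right _ _
  have m2 : ε ≤ η / (4 * C + 5) := min_le_left _ _
  rw [le_div_iff₀ (by positivity)] at m2
  obtain ⟨S, hS⟩ := h.small (ε := ε ^ 2 / 2) C0 (by positivity)
  filter_upwards [tendsto_one_div_add_atTop_nhds_zero_nat.eventually
    (eventually_le_nhds (show (0 : ℝ) < ε ^ 2 / 2 by positivity)),
    tendsto_natCast_atTop_atTop.eventually_ge_atTop (S + 2 * C + 1 - C₁)] with n n1 n2 q
  have cg : ∀ x : H, x.2.2 < C₁ + n → Th (X n) x = Th χ x := fun x hx =>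
    Th_congr ((eventually_lt_nhds hx).mono fun s hs => e n s hs.le)
  by_cases a : q.2.2 ≤ χ (C₁ + n - C - 1)
  · obtain ⟨s, hs⟩ := h.range (a.trans_lt (h.lt _))
    obtain ⟨p, rfl⟩ := h.inc.range hs
    have a1 := h.inc.mono.le_iff_le.1 a
    rw [ext_Th h.inc, ← cg p (by linarith), ext_Th (i n),
      cg _ (by linarith [abs_le.1 (t.2.2.1 p)]), dist_self]
    exact η0
  have a1 : dist (ext χ K q) q ≤ (2 * C + 2) * ε := by
    rcases h.inc.cases q with ⟨p, rfl⟩ | e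
    · have a1 := h.inc.mono.lt_iff_lt.1 (not_le.1 a)
      rw [ext_Th h.inc, dist_eq_norm]
      exact disp h.inc t p0.le m1 fun u hu => by
        linarith [hS u (by linarith [abs_le.1 hu]), sq_nonneg ε]
    · rw [ext_out _ e, dist_self]; positivity
  have a2 : dist (ext (X n) K q) q ≤ (2 * C + 2) * ε := by
    obtain ⟨s, hs⟩ := sX n q.2.2
    obtain ⟨p, rfl⟩ := (i n).range hs
    rw [← e n _ (by linarith)] at a
    have a1 := (i n).mono.lt_iff_lt.1 (not_le.1 a)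
    rw [ext_Th (i n), dist_eq_norm]
    exact disp (i n) t p0.le m1 fun u hu => by
      linarith [hS u (by linarith [abs_le.1 hu]), d n u]
  linarith [dist_triangle_right (ext χ K q) (ext (X n) K q) q]

end
end Pool.Agent.Lib.MP_efe47c_gt.C
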