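import Pool.Agent.Lib.MP_efe47c_gt.C.Ko
import Pool.Agent.Lib.MP_efe47c_gt.C.Ch
import Pool.Agent.Lib.MP_efe47c_gt.C.Co
import Pool.Agent.Lib.MP_efe47c_gt.C.Defs

/-! Assembly of the contact homeomorphism. -/

namespace Pool.Agent.Lib.MP_efe47c_gt.C
open Set Filter Topology Function
open scoped ContDiff Manifold Classical

noncomputable section

variable {M : Type} [TopologicalSpace M] [ChartedSpace R5 M]

theorem crd_le {a a' : H → H} {q₁ : H} (ca : ContinuousAt a q₁) {B : ℝ} (B0 : 0 ≤ B)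
    (h : ∀ᶠ z in 𝓝 (q₁, q₁), kd (a' z.1) (a' z.2) ≤ B * kd (a z.1) (a z.2)) :
    ∃ B, 0 ≤ B ∧ ∀ᶠ z in 𝓝 (q₁, q₁), crd (kap U0 (a' z.1)) (kap U0 (a' z.2)) ≤
      B * crd (kap U0 (a z.1)) (kap U0 (a z.2)) := by
  set m := Complex.normSq (cu (a q₁)) / 2
  have m0 : 0 < m := half_pos (Complex.normSq_pos.2 (cu_ne _))
  have e : ∀ᶠ p in 𝓝 q₁, m < Complex.normSq (cu (a p)) := continuousAt_const.eventually_lt
    ((cd_nsq (cd_cu _)).continuousAt.comp ca) (half_lt_self (Complex.normSq_pos.2 (cu_ne _)))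
  have u : ∀ h, Complex.normSq (cu h) ≤ 1 := fun h => by
    rw [cu_nsq]; exact inv_le_one_of_one_le₀ (den_ge h)
  refine ⟨B / m ^ 2 + 1, by positivity, ?_⟩
  filter_upwards [h, continuousAt_fst.eventually e, continuousAt_snd.eventually e] with z h1 h2 h3
  refine le_of_sq_le_sq ?_ (mul_nonneg (by positivity) (norm_nonneg _))
  have e1 : crd (kap U0 (a' z.1)) (kap U0 (a' z.2)) ^ 2 = _ := kd_k0 _ _
  have e2 : crd (kap U0 (a z.1)) (kap U0 (a z.2)) ^ 2 = _ := kd_k0 _ _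
  have k0 : 0 ≤ kd (a z.1) (a z.2) := gau_nn _
  have k1 : 0 ≤ kd (a' z.1) (a' z.2) := gau_nn _
  have b0 : 0 ≤ B / m ^ 2 := by positivity
  rw [mul_pow, e1, e2]
  calc _ ≤ 4 * (1 * 1) * (B * kd (a z.1) (a z.2)) := by
        have := Complex.normSq_nonneg (cu (a' z.2))
        gcongr <;> exact u _
    _ = B / m ^ 2 * (4 * (m * m) * kd (a z.1) (a z.2)) := by field_simp
    _ ≤ _ := by
        have := Complex.normSq_nonneg (cu (a z.1))
        gcongr
        nlinarith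

theorem lip_of {α : Form R5 M} {e : PD R5 S5 M} (he : Contacto std α e) {f : M → S5}
    {G G' : H → H} {q₁ : H} (cG : ContinuousAt G q₁) (cG' : ContinuousAt G' (G q₁))
    (i : ∀ q, G' (G q) = q)
    (h1 : ∀ᶠ q in 𝓝 q₁, q ≠ 0 ∧ kap U0 (nu q) ∈ e.source ∧ f (e (kap U0 (nu q))) = kap U0 (G q))
    (k1 : KL G q₁) (k2 : KL G' (G q₁)) : Lip α std crd f (e (kap U0 (nu q₁))) := by
  have n1 := h1.self_of_nhds.1
  have cn := (LH_nu n1).cont
  obtain ⟨B₁, p1, h2⟩ := KL.comp (g := mu) (a := nu q₁) (by rwa [mu_nu n1])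
    (kl_of_LH ((eventually_ne_nhds (nu_ne n1)).mono fun q hq => LH_mu hq)) (LH_mu (nu_ne n1)).cont
  obtain ⟨B₂, p2, h3⟩ := KL.comp (g' := nu) (a := G q₁)
    (by rw [i]; exact kl_of_LH ((eventually_ne_nhds n1).mono fun q hq => LH_nu hq)) k2 cG'
  obtain ⟨B₃, p3, h4⟩ := crd_le (a' := G) cn p1 (by
    filter_upwards [(cn.prodMap' cn).eventually h2, continuousAt_fst.eventually h1,
      continuousAt_snd.eventually h1] with z a1 a2 a3
    simpa only [Prod.map_fst, Prod.map_snd, mu_nu a2.1, mu_nu a3.1] using a1)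
  obtain ⟨B₄, p4, h5⟩ := crd_le (a' := nu) cG p2 (by
    filter_upwards [(cG.prodMap' cG).eventually h3] with z a1
    simpa only [Prod.map_fst, Prod.map_snd, i] using a1)
  have h6 := h4.and h5
  rw [nhds_prod_eq] at h6
  obtain ⟨t, ht, h7⟩ := (eventually_prod_self_iff (r := fun p q =>
    crd (kap U0 (G p)) (kap U0 (G q)) ≤ B₃ * crd (kap U0 (nu p)) (kap U0 (nu q)) ∧
    crd (kap U0 (nu p)) (kap U0 (nu q)) ≤ B₄ * crd (kap U0 (G p)) (kap U0 (G q)))).1 h6
  obtain ⟨N, hN, oN, mN⟩ := eventually_nhds_iff.1 (h1.and ht)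
  have lB : ∀ q ∈ N, LD aH aS (fun q => kap U0 (nu q)) q := fun q hq =>
    (LD_kap _).comp (LH_nu (hN q hq).1.1)
  have sV : (fun q => kap U0 (nu q)) '' N ⊆ e.source := by
    rintro _ ⟨q, hq, rfl⟩
    exact (hN q hq).1.2.1
  have : Nonempty S5 := ⟨pole U0⟩
  obtain ⟨d, d1, d2, d3, d4⟩ := exists_pd (α := std) (β := α) (f := e)
    (isOpen_image_of_LD oN lB) (e.injOn.mono sV).bijOn_image fun p hp => he.ld (sV hp)
  refine ⟨d, B₃ + B₄, d2 ▸ ⟨_, ⟨q₁, mN, rfl⟩, rfl⟩, d4, ?_⟩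
  rw [d1, d3]
  rintro _ ⟨p, hp, rfl⟩ _ ⟨q, hq, rfl⟩
  obtain ⟨a1, a2⟩ := h7 p (hN p hp).2 q (hN q hq).2
  rw [(hN p hp).1.2.2, (hN q hq).1.2.2]
  exact ⟨a2.trans (mul_le_mul_of_nonneg_right (by linarith) (norm_nonneg _)),
    a1.trans (mul_le_mul_of_nonneg_right (by linarith) (norm_nonneg _))⟩

theorem fin [T2Space M] [CompactSpace M] {α : Form R5 M} {e : PD R5 S5 M} {b₀ : ℝ} (b1 : 1 < b₀)
    (he : Contacto std α e) (ms : ∀ h, gau h < b₀ → kap U0 h ∈ e.source)
    (O : Out (fn α) (e (kap U0 xo)) fun p => e (kap U0 (nu p))) : TopStd α := by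
  obtain ⟨Ψ, K, c, C, c0, tK, bΨ, lΨ, lK, far⟩ := O
  have C0 := tK.1
  set m₀ := e (kap U0 xo) with hm₀
  have t : Tub c (2 * C) K := tK.mono (by linarith)
  have t' : Tub c (2 * C) K.symm := tK.symm
  have l : ∀ p : H, 2 * C ≤ p.2.2 → LH K p := fun p hp => lK p (by linarith)
  have gx : gau xo < b₀ := gau_xo ▸ b1
  have le : ∀ h, gau h < b₀ → LD aH (fn α) (fun h => e (kap U0 h)) h := fun h hh =>
    (he.ld (ms h hh)).comp (LD_kap h)
  have good : ∀ᶠ p in cocompact H, p ≠ 0 ∧ gau (nu p) < b₀ ∧ e (kap U0 (nu p)) ≠ m₀ ∧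
      K.symm (Ψ (e (kap U0 (nu p)))) = p := by
    filter_upwards [(isCompact_singleton (x := (0 : H))).compl_mem_cocompact,
      nu_top.eventually (cont_gau.continuousAt.eventually_lt continuousAt_const gx),
      (cpt_gau (C ^ 2 + C ^ 2)).compl_mem_cocompact] with p h1 h2 h3
    refine ⟨h1, h2, fun k => nu_ne h1 (LeftInverse.injective cay_kap
      (e.injOn (ms _ h2) (ms _ gx) k)), ?_⟩
    rw [Equiv.symm_apply_eq]
    refine far p ?_
    by_contra k
    push Not at k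
    exact h3 (add_le_add (pow_le_pow_left₀ (rho_nn _) k.1 2) (sq_le_sq' (abs_lt.1 k.2).1.le
      (abs_lt.1 k.2).2.le))
  obtain ⟨Z, cZ, hZ⟩ := mem_cocompact.1 good
  obtain ⟨R, hR⟩ := gau_bdd cZ
  have R0 := abs_nonneg R
  obtain ⟨χ, st⟩ := exists_stop (C := 2 * C) (C₁ := 6 * C + |R| + 1) (by linarith) (by linarith)
  set b := 6 * C + |R| + 1 + 2 with hb
  have nq : ∀ᶠ p in 𝓝 (top b), p ≠ 0 ∧ gau (nu p) < b₀ ∧ e (kap U0 (nu p)) ≠ m₀ ∧
      K.symm (Ψ (e (kap U0 (nu p)))) = p := by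
    refine mem_of_superset (cZ.isClosed.isOpen_compl.mem_nhds fun k => ?_) hZ
    have := hR _ k
    have e : gau (top b) = b ^ 2 := by simp [gau, rho, top]
    nlinarith [le_abs_self R]
  obtain ⟨q0, q1, q2, q3⟩ := nq.self_of_nhds
  set x := e (kap U0 (nu (top b))) with hx
  let f : M → S5 := fun m => if m = m₀ then pole U0 else kap U0 (ext χ K (K.symm (Ψ m)))
  have f0 : f m₀ = pole U0 := if_pos rfl
  have f1 : ∀ m, m ≠ m₀ → f m = kap U0 (ext χ K (K.symm (Ψ m))) := fun m hm => if_neg hm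
  have bj : ∀ G : H ≃ H, BijOn (fun m => kap U0 (G (K.symm (Ψ m)))) {m₀}ᶜ {pole U0}ᶜ := fun G =>
    (bij_kap U0).comp (G.bijective.bijOn_univ.comp (K.symm.bijective.bijOn_univ.comp bΨ))
  have bf : BijOn f {m₀}ᶜ {pole U0}ᶜ := (bj (extE st.inc K)).congr fun m hm => (f1 m hm).symm
  have bij : Bijective f := by
    have := bf.union (s₂ := {m₀}) (t₂ := {pole U0}) (bijOn_singleton.2 f0) (by
      intro m _ m' _ k
      by_cases a : m = m₀ <;> by_cases a' : m' = m₀
      · rw [a, a']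
      · exact absurd (k.symm.trans (a ▸ f0)) (bf.mapsTo a')
      · exact absurd (k.trans (a' ▸ f0)) (bf.mapsTo a)
      · exact bf.injOn a a' k)
    rwa [compl_union_self, compl_union_self, bijOn_univ] at this
  have lf : ∀ m, m ≠ x → LD (fn α) aS f m := fun m hm => by
    by_cases a : m = m₀
    · subst a
      refine LD_cancel (f := fun h => e (kap U0 h)) (x := xo) (le xo gx)
        (((LD_kap (U := UA) _).comp (LH_tr (-xo) xo)).congr ?_)
      have := mu_xo.eventually (good.and (st.far t (by linarith)))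
      filter_upwards [eventually_nhdsWithin_iff.1 this] with h hh
      by_cases a : h = xo
      · rw [a, tr_self, kap_zero]; exact f0
      · obtain ⟨⟨-, -, a1, a2⟩, a3⟩ := hh a
        rw [nu_mu a] at a1 a2
        rw [f1 _ a1, a2, a3, mu, kap_iv (tr_ne a)]
    · refine ((LD_kap _).comp ((st.lh t t' (by linarith) l fun k => hm ?_).comp (lΨ m a))).congr
        ((eventually_ne_nhds a).mono f1)
      exact bΨ.injOn a q2 (K.symm.injective (k.trans q3.symm))
  have le1 : LD aH (fn α) (fun p => e (kap U0 (nu p))) (top b) := (le _ q1).comp (LH_nu q0)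
  have f2 : ∀ᶠ p in 𝓝 (top b), f (e (kap U0 (nu p))) = kap U0 (ext χ K p) :=
    nq.mono fun p hp => by rw [f1 _ hp.2.2.1, hp.2.2.2]
  have wf : ∀ m, WD (fn α) aS f m := fun m => by
    by_cases a : m = x
    · subst a
      exact WD_cancel (f := fun p => e (kap U0 (nu p))) (x := top b) le1
        (((LD_wd (LD_kap _)).comp (st.wd t) rfl).congr f2)
    · exact LD_wd (lf m a)
  let F : M ≃ₜ S5 := Continuous.homeoOfEquivCompactToT2 (f := Equiv.ofBijective f bij)
    (continuous_iff_continuousAt.2 fun m => (wf m).1.continuousAt)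
  have fx : f x = kap U0 (top b) := by rw [f2.self_of_nhds, st.fix]
  have : Nonempty M := ⟨m₀⟩
  obtain ⟨g, g1, -, g3, -⟩ := exists_pd (α := α) (β := std) (f := f) (U := {x}ᶜ)
    isOpen_compl_singleton bij.injective.injOn.bijOn_image lf
  refine ⟨F, x, m₀, g, q2, g1, fun m _ => (congrFun g3 m).symm,
    ⟨fun m => (wf m).1, fun y => ?_, fun m => (wf m).2⟩, ?_,
    lip_of he (st.fd t).continuousAt (by rw [st.fix]; exact (st.fd t').continuousAt)
      (ext_inv st.inc K) ((nq.and f2).mono fun p hp =>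
      ⟨hp.1.1, ms _ hp.1.2.1, hp.2⟩) (HB.kl (st.lip t c0 l)) (by
        rw [st.fix]
        exact HB.kl (st.lip (T := 4 * C) t' c0 fun p hp => (LH_high t' l (by linarith)).2))⟩
  · obtain ⟨m, rfl⟩ := bij.surjective y
    by_cases a : m = x
    · subst a
      rw [fx]
      have lc := LD_cay (kap_ne (U := U0) (top b))
      have tc : Tendsto (cay U0) (𝓝 (kap U0 (top b))) (𝓝 (top b)) := by
        have := lc.cont.tendsto
        rwa [cay_kap] at this
      refine ((LD_wd le1).comp ((st.wd t').comp (LD_wd lc) (cay_kap _))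
        (by rw [cay_kap, st.fix])).1.congr_of_eventuallyEq ?_
      filter_upwards [((st.tend t').comp tc).eventually f2,
        eventually_ne_nhds (kap_ne (U := U0) (top b))] with y h1 h2
      rw [Homeomorph.symm_apply_eq]
      refine Eq.symm (h1.trans ?_)
      rw [comp_apply, show ext χ K (ext χ K.symm (cay U0 y)) = _ from ext_inv st.inc K.symm _,
        kap_cay h2]
    · exact ((lf m a).symm (g := F.symm) (.of_forall F.symm_apply_apply)).sm.md
  · obtain ⟨X, x1, x2, x3, x4⟩ := st.approx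
    have k : ∀ n, ∃ G : PD R5 M S5, G.source = {m₀}ᶜ ∧ G.target = {pole U0}ᶜ ∧
        (G : M → S5) = (fun m => kap U0 (ext (X n) K (K.symm (Ψ m)))) ∧ Contacto α std G :=
      fun n => exists_pd isOpen_compl_singleton (bj (extE (x1 n) K)) fun m hm =>
        (LD_kap _).comp ((LH_range (x1 n) (fun s hs => (x3 n s (by
          linarith [n.cast_nonneg (α := ℝ)])).trans (st.id s hs)) t' (by linarith) l
            (x2 n _)).comp (lΨ m hm))
    choose G k1 k2 k3 k4 using k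
    refine ⟨G, fun n => ⟨k1 n, (k2 n).trans bf.image_eq.symm, k4 n⟩, ?_⟩
    simp only [k3]
    exact ((uc_kap.comp_tendstoUniformly (st.unif t x1 x2 x3 x4)).comp
      fun m => K.symm (Ψ m)).tendstoUniformlyOn.congr_right fun m hm => (f1 m hm).symm

end
end Pool.Agent.Lib.MP_efe47c_gt.C
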