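import Pool.Agent.Lib.MP_efe47c_gt.C.Ax

/-! Bounded horizontal differential implies Lipschitz for the metric of Korányi. -/

namespace Pool.Agent.Lib.MP_efe47c_gt.C
open Set Filter Topology Complex Function
open scoped ContDiff ComplexConjugate

noncomputable section

/-- The fourth power of the distance of Korányi. -/
def kd (p q : H) : ℝ := gau (tr (-p) q)

def Cl (x y : H) (r : ℝ) : Prop :=
  ‖(tr (-x) y).1‖ ≤ r ∧ ‖(tr (-x) y).2.1‖ ≤ r ∧ |(tr (-x) y).2.2| ≤ r ^ 2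

theorem th_le {p v : H} {r s : ℝ} (h1 : ‖p.1‖ ≤ r) (h2 : ‖p.2.1‖ ≤ r) (h3 : ‖v.1‖ ≤ s)
    (h4 : ‖v.2.1‖ ≤ s) : |th p v| ≤ 2 * (r * s) := by
  have i : ∀ z x : ℂ, ‖z‖ ≤ r → ‖x‖ ≤ s → |(conj z * x).im| ≤ r * s := fun z x hz hx => by
    refine (abs_im_le_norm _).trans ?_
    rw [norm_mul, norm_conj]
    exact mul_le_mul hz hx (norm_nonneg _) ((norm_nonneg _).trans hz)
  have := abs_le.1 (i _ _ h1 h3)
  have := abs_le.1 (i _ _ h2 h4)
  exact abs_le.2 ⟨by unfold th; linarith, by unfold th; linarith⟩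

theorem Cl.trans {x y z : H} {r s : ℝ} (h : Cl x y r) (k : Cl y z s) : Cl x z (2 * (r + s)) := by
  have e : tr (-x) z = tr (tr (-x) y) (tr (-y) z) := by
    refine Prod.ext (by simp [tr]) (Prod.ext (by simp [tr]) ?_)
    simp [tr, th]; ring
  have r0 := (norm_nonneg _).trans h.1
  have s0 := (norm_nonneg _).trans k.1
  have t := abs_le.1 (th_le h.1 h.2.1 k.1 k.2.1)
  have a := abs_le.1 h.2.2
  have b := abs_le.1 k.2.2
  rw [Cl, e]
  refine ⟨(norm_add_le _ _).trans (by linarith [h.1, k.1]),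
    (norm_add_le _ _).trans (by linarith [h.2.1, k.2.1]), ?_⟩
  change |(tr (-y) z).2.2 + (tr (-x) y).2.2 - 2 * th (tr (-x) y) (tr (-y) z)| ≤ _
  exact abs_le.2 ⟨by nlinarith [mul_nonneg r0 s0], by nlinarith [mul_nonneg r0 s0]⟩

theorem Cl.kd {x y : H} {r : ℝ} (h : Cl x y r) : kd x y ≤ 5 * r ^ 4 := by
  have a := pow_le_pow_left₀ (norm_nonneg _) h.1 2
  have b := pow_le_pow_left₀ (norm_nonneg _) h.2.1 2
  have c := pow_le_pow_left₀ (abs_nonneg _) h.2.2 2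
  rw [← normSq_eq_norm_sq] at a b
  rw [sq_abs] at c
  have d : rho (tr (-x) y) ^ 2 ≤ (2 * r ^ 2) ^ 2 :=
    pow_le_pow_left₀ (rho_nn _) (by unfold rho; linarith) 2
  unfold C.kd gau
  linarith

theorem cl_kd (x y : H) : ∃ r, 0 ≤ r ∧ r ^ 4 = kd x y ∧ Cl x y r := by
  have g := gau_nn (tr (-x) y)
  have e : √√(kd x y) ^ 2 = √(kd x y) := Real.sq_sqrt (Real.sqrt_nonneg _)
  have a := normSq_nonneg (tr (-x) y).1
  have b := normSq_nonneg (tr (-x) y).2.1
  have c : rho (tr (-x) y) ≤ √(kd x y) :=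
    Real.le_sqrt_of_sq_le (le_add_of_nonneg_right (sq_nonneg _))
  refine ⟨√√(kd x y), Real.sqrt_nonneg _, ?_, Real.le_sqrt_of_sq_le ?_, Real.le_sqrt_of_sq_le ?_, ?_⟩
  · rw [show (4 : ℕ) = 2 * 2 from rfl, pow_mul, e]; exact Real.sq_sqrt g
  · rw [← normSq_eq_norm_sq]; unfold rho at c; linarith
  · rw [← normSq_eq_norm_sq]; unfold rho at c; linarith
  · rw [e]; exact Real.abs_le_sqrt (le_add_of_nonneg_left (sq_nonneg _))

/-- Differentiable near `a`, with bounded differential along the contact planes. -/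
def HB (g : H → H) (a : H) : Prop := ∃ B, ∀ᶠ q in 𝓝 a, DifferentiableAt ℝ g q ∧
  ∀ w, aH q w = 0 → aH (g q) (fderiv ℝ g q w) = 0 ∧ ‖fderiv ℝ g q w‖ ≤ B * ‖w‖

/-- Lipschitz near `a` for the distance of Korányi. -/
def KL (g : H → H) (a : H) : Prop :=
  ∃ B, 0 ≤ B ∧ ∀ᶠ z in 𝓝 (a, a), kd (g z.1) (g z.2) ≤ B * kd z.1 z.2

variable {g g' : H → H} {a p : H} {B δ r : ℝ}

theorem seg (B0 : 0 ≤ B) (d1 : δ ≤ 1) (h : ∀ q, dist q a < δ → DifferentiableAt ℝ g q ∧
    ∀ w, aH q w = 0 → aH (g q) (fderiv ℝ g q w) = 0 ∧ ‖fderiv ℝ g q w‖ ≤ B * ‖w‖)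
    (hp : dist p a + (4 * ‖a‖ + 5) * r < δ) {x y : ℂ} (hx : ‖x‖ ≤ r) (hy : ‖y‖ ≤ r) :
    Cl (g p) (g (tr p (x, y, 0))) (2 * (B * ((4 * ‖a‖ + 5) * r))) ∧
      dist (tr p (x, y, 0)) a ≤ dist p a + (4 * ‖a‖ + 5) * r := by
  have r0 := (norm_nonneg _).trans hx
  have a0 := norm_nonneg a
  set w : H := (x, y, -(2 * th p (x, y, 0))) with hw
  have np : ‖p‖ ≤ ‖a‖ + 1 := by
    have := norm_le_norm_add_norm_sub' p a
    rw [← dist_eq_norm] at this
    nlinarith [mul_nonneg a0 r0]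
  have nw : ‖w‖ ≤ (4 * ‖a‖ + 5) * r := by
    have := th_le (v := (x, y, 0)) ((n1_le p).1.trans np) ((n1_le p).2.1.trans np) hx hy
    refine norm_prod_le_iff.2 ⟨by nlinarith [mul_nonneg a0 r0], norm_prod_le_iff.2
      ⟨by nlinarith [mul_nonneg a0 r0], ?_⟩⟩
    change |-(2 * th p (x, y, 0))| ≤ _
    rw [abs_neg, abs_mul, abs_two]
    linarith
  have e : tr p (x, y, 0) = p + (1 : ℝ) • w := by
    refine Prod.ext (by simp [tr, hw, add_comm]) (Prod.ext (by simp [tr, hw, add_comm]) ?_)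
    simp [tr, hw]; ring
  have ds : ∀ s ∈ Icc (0 : ℝ) 1, dist (p + s • w) a ≤ dist p a + (4 * ‖a‖ + 5) * r := fun s hs => by
    have := dist_triangle (p + s • w) p a
    rw [dist_self_add_left, norm_smul, Real.norm_of_nonneg hs.1] at this
    nlinarith [mul_le_mul_of_nonneg_right hs.2 (norm_nonneg w)]
  refine ⟨?_, e ▸ ds 1 ⟨zero_le_one, le_rfl⟩⟩
  set L := B * ((4 * ‖a‖ + 5) * r)
  have L0 : 0 ≤ L := by positivity
  have k : ∀ s ∈ Icc (0 : ℝ) 1, HasDerivAt (fun s : ℝ => g (p + s • w))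
      (fderiv ℝ g (p + s • w) w) s ∧ aH (g (p + s • w)) (fderiv ℝ g (p + s • w) w) = 0 ∧
        ‖fderiv ℝ g (p + s • w) w‖ ≤ L := fun s hs => by
    obtain ⟨h1, h2⟩ := h _ ((ds s hs).trans_lt hp)
    obtain ⟨h3, h4⟩ := h2 w (by simp [aH, th, hw]; ring)
    refine ⟨h1.hasFDerivAt.comp_hasDerivAt s ?_, h3,
      h4.trans (mul_le_mul_of_nonneg_left nw B0)⟩
    simpa using ((hasDerivAt_id s).smul_const w).const_add p
  have m : ∀ s ∈ Icc (0 : ℝ) 1, ‖g (p + s • w) - g p‖ ≤ L := fun s hs => by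
    have := norm_image_sub_le_of_norm_deriv_le_segment' (C := L)
      (fun s hs => (k s hs).1.hasDerivWithinAt) (fun s hs => (k s ⟨hs.1, hs.2.le⟩).2.2) s hs
    simp only [zero_smul, add_zero, sub_zero] at this
    nlinarith [mul_le_mul_of_nonneg_left hs.2 L0]
  have m1 := m 1 ⟨zero_le_one, le_rfl⟩
  rw [e]
  have i1 : ‖(tr (-g p) (g (p + (1 : ℝ) • w))).1‖ = ‖(g (p + (1 : ℝ) • w) - g p).1‖ := by
    simp [tr, sub_eq_add_neg]
  have i2 : ‖(tr (-g p) (g (p + (1 : ℝ) • w))).2.1‖ = ‖(g (p + (1 : ℝ) • w) - g p).2.1‖ := by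
    simp [tr, sub_eq_add_neg]
  refine ⟨by linarith [(n1_le _).1.trans m1], by linarith [(n1_le _).2.1.trans m1], ?_⟩
  have d : ∀ s ∈ Icc (0 : ℝ) 1, HasDerivAt (fun s : ℝ => (tr (-g p) (g (p + s • w))).2.2)
      (-(2 * th (g (p + s • w) - g p) (fderiv ℝ g (p + s • w) w))) s := fun s hs => by
    obtain ⟨h1, h2, -⟩ := k s hs
    have f1 := (ContinuousLinearMap.fst ℝ ℂ (ℂ × ℝ)).hasFDerivAt.comp_hasDerivAt s h1
    have f2 := (ContinuousLinearMap.snd ℝ ℂ (ℂ × ℝ)).hasFDerivAt.comp_hasDerivAt s h1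
    have f3 := (ContinuousLinearMap.fst ℝ ℂ ℝ).hasFDerivAt.comp_hasDerivAt s f2
    have f4 := (ContinuousLinearMap.snd ℝ ℂ ℝ).hasFDerivAt.comp_hasDerivAt s f2
    refine ((f4.add_const (-g p).2.2).sub (((hd_im (f1.const_mul (conj (-g p).1))).add
      (hd_im (f3.const_mul (conj (-g p).2.1)))).const_mul 2)).congr_deriv ?_
    simp only [aH, th, Prod.fst_neg, Prod.snd_neg, Prod.fst_sub, Prod.snd_sub, map_neg, map_sub,
      neg_mul, sub_mul, neg_im, sub_im, ContinuousLinearMap.coe_fst', ContinuousLinearMap.coe_snd']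
      at h2 ⊢
    linarith
  have := norm_image_sub_le_of_norm_deriv_le_segment' (C := (2 * L) ^ 2)
    (fun s hs => (d s hs).hasDerivWithinAt) (fun s hs => by
      have hs' : s ∈ Icc (0 : ℝ) 1 := ⟨hs.1, hs.2.le⟩
      have := th_le ((n1_le _).1.trans (m s hs')) ((n1_le _).2.1.trans (m s hs'))
        ((n1_le _).1.trans (k s hs').2.2) ((n1_le _).2.1.trans (k s hs').2.2)
      rw [Real.norm_eq_abs, abs_neg, abs_mul, abs_two]
      linarith) 1 ⟨zero_le_one, le_rfl⟩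
  simpa only [zero_smul, add_zero, tr_self, Prod.snd_zero, sub_zero, mul_one, Real.norm_eq_abs]
    using this

theorem tr_comm (p : H) (x y : ℂ) (s t : ℝ) : tr (tr (tr (tr (tr p (x, y, 0)) (s, 0, 0))
    (t * I, 0, 0)) (-s, 0, 0)) (-(t * I), 0, 0) = tr p (x, y, -(4 * (s * t))) := by
  refine Prod.ext (by simp only [tr]; ring) (Prod.ext (by simp [tr]) ?_)
  simp [tr, th]
  ring

theorem cont_kd : Continuous fun z : H × H => kd z.1 z.2 := by
  refine cont_gau.comp ?_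
  unfold tr th
  fun_prop

theorem HB.kl (h : HB g a) : KL g a := by
  obtain ⟨B, hB⟩ := h
  obtain ⟨δ', d0, hδ⟩ := Metric.eventually_nhds_iff.1 hB
  set δ := min δ' 1
  have p0 : 0 < δ := lt_min d0 one_pos
  have a0 := norm_nonneg a
  have S := fun (p : H) (r : ℝ) => seg (g := g) (a := a) (p := p) (r := r) (abs_nonneg B)
    (min_le_right δ' 1) fun q hq => ⟨(hδ (hq.trans_le (min_le_left _ _))).1, fun w hw =>
      ⟨((hδ (hq.trans_le (min_le_left _ _))).2 w hw).1,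
        ((hδ (hq.trans_le (min_le_left _ _))).2 w hw).2.trans
          (mul_le_mul_of_nonneg_right (le_abs_self B) (norm_nonneg _))⟩⟩
  set D := 4 * ‖a‖ + 5
  have D0 : 0 < D := by positivity
  refine ⟨5 * (92 * (|B| * D)) ^ 4, by positivity, ?_⟩
  filter_upwards [(continuous_fst.dist (continuous_const (y := a))).continuousAt.eventually_lt
      (g := fun _ => δ / 2) continuousAt_const (by simpa using p0),
    cont_kd.continuousAt.eventually_lt (g := fun _ => (δ / (10 * D)) ^ 4) continuousAt_const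
      (by simp only [kd, tr_self, gau_zero]; positivity)] with z h1 h2
  obtain ⟨p, q⟩ := z
  obtain ⟨r, r0, r4, c1, c2, c3⟩ := cl_kd p q
  simp only at h1 h2 ⊢
  rcases r0.eq_or_lt with rfl | r0
  · have : tr (-p) q = 0 := Prod.ext (norm_le_zero_iff.1 c1)
      (Prod.ext (norm_le_zero_iff.1 c2) (by simpa using c3))
    rw [← tr_tr' p q, this, tr_zero]
    simp [kd, tr_self]
  have h3 := lt_of_pow_lt_pow_left₀ 4 (by positivity) (r4 ▸ h2)
  rw [lt_div_iff₀ (by positivity)] at h3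
  have Dr : 0 < D * r := by positivity
  set u := tr (-p) q with hu
  have z0 : ‖(0 : ℂ)‖ ≤ r := by simpa using r0.le
  have n1 : ‖((r / 2 : ℝ) : ℂ)‖ ≤ r := by
    rw [norm_real, Real.norm_of_nonneg (by positivity)]; linarith
  have n2 : ‖((-u.2.2 / (2 * r) : ℝ) : ℂ) * I‖ ≤ r := by
    rw [norm_mul, norm_I, mul_one, norm_real, Real.norm_eq_abs, abs_div, abs_neg,
      abs_of_pos (mul_pos two_pos r0), div_le_iff₀ (by positivity)]
    nlinarith
  obtain ⟨s1, t1⟩ := S p r (by linarith) c1 c2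
  obtain ⟨s2, t2⟩ := S _ r (by linarith [t1]) n1 z0
  obtain ⟨s3, t3⟩ := S _ r (by linarith [t2]) n2 z0
  obtain ⟨s4, t4⟩ := S _ r (by linarith [t3]) ((norm_neg _).trans_le n1) z0
  obtain ⟨s5, -⟩ := S _ r (by linarith [t4]) ((norm_neg _).trans_le n2) z0
  have := ((((s1.trans s2).trans s3).trans s4).trans s5).kd
  rw [tr_comm, show -(4 * (r / 2 * (-u.2.2 / (2 * r)))) = u.2.2 by field_simp; ring, hu,
    tr_tr'] at this
  rw [← r4]
  exact this.trans_eq (by ring)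

theorem KL.comp (h' : KL g' (g a)) (h : KL g a) (c : ContinuousAt g a) :
    KL (fun x => g' (g x)) a := by
  obtain ⟨B, B0, hB⟩ := h
  obtain ⟨B', B1, hB'⟩ := h'
  refine ⟨B' * B, mul_nonneg B1 B0, ?_⟩
  filter_upwards [hB, (c.prodMap' c).eventually hB'] with z h1 h2
  exact h2.trans (mul_assoc B' B _ ▸ mul_le_mul_of_nonneg_left h1 B1)

theorem kl_of_LH (h : ∀ᶠ q in 𝓝 a, LH g q) : KL g a := by
  refine HB.kl ⟨‖fderiv ℝ g a‖ + 1, ?_⟩
  filter_upwards [h, (h.self_of_nhds.sm.contDiffAt.continuousAt_fderiv (by simp)).norm.eventually_lt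
    continuousAt_const (lt_add_one _)] with q h1 h2
  exact ⟨cd_diff h1.sm.contDiffAt, fun w hw => ⟨D_vec g _ ▸ LD_hor h1 hw,
    (fderiv ℝ g q).le_of_opNorm_le h2.le w⟩⟩

theorem kd_k0 (p q : H) :
    ‖1 - inner ℂ (k0 p) (k0 q)‖ ^ 2 = 4 * (normSq (cu p) * normSq (cu q)) * kd p q := by
  have e : 1 - inner ℂ (k0 p) (k0 q) = 2 * (conj (cu p) * cu q) * conj (ze 1 (tr (-p) q)) := by
    have a := den_ne q
    have b : 1 + ze 1 p ≠ 0 := fun e => den_ne p (by simpa using congrArg conj e)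
    have c : conj (cu p) = (1 + ze 1 p)⁻¹ := by simp [cu]
    have d : conj (ze 1 (tr (-p) q)) =
        ze 1 p + conj (ze 1 q) - 2 * (conj p.1 * q.1 + conj p.2.1 * q.2.1) := by
      apply Complex.ext <;> simp [tr, th, rho, normSq_apply] <;> ring
    simp only [PiLp.inner_apply, Fin.sum_univ_three, RCLike.inner_apply, k0_0, k0_1, k0_2, map_sub,
      map_mul, map_one, map_ofNat, c, d]
    rw [cu]
    field_simp
    ring
  rw [e, ← normSq_eq_norm_sq, map_mul, map_mul, map_mul, normSq_conj, normSq_conj, nsq_ze, kd]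
  norm_num [normSq_apply]

end
end Pool.Agent.Lib.MP_efe47c_gt.C
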