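import Pool.Agent.Lib.MP_efe47c_gt.C.En

/-! The horizontal differential is bounded near the end point. -/

namespace Pool.Agent.Lib.MP_efe47c_gt.C
open Set Filter Topology Complex Function
open scoped ContDiff ComplexConjugate Manifold

noncomputable section

section
variable {E F : Type} [NormedAddCommGroup E] [NormedSpace ℝ E] [NormedAddCommGroup F]
  [NormedSpace ℝ F] {M N : Type} [TopologicalSpace M] [ChartedSpace E M] [TopologicalSpace N]
  [ChartedSpace F N] {α : M → E → ℝ} {β : N → F → ℝ} {f : M → N} {x : M}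

theorem LD_surj (h : LD α β f x) (w : F) : ∃ v, D E F f x v = w ∧ (β (f x) w = 0 → α x v = 0) := by
  obtain ⟨u, u1, u2, u3⟩ := h.inv
  obtain ⟨c, c0, hc⟩ := h.cf
  have e : u (f x) = x := u2.self_of_nhds
  have h1 : D E F f (u (f x)) (D F E u (f x) w) = w := by
    rw [← D_comp (e.symm ▸ h.sm) u1, D_congr (g := fun z => z) u3, D_id]
  rw [e] at h1
  refine ⟨_, h1, fun k => ?_⟩
  have := hc (D F E u (f x) w)
  rw [h1, k] at this
  exact (mul_eq_zero.1 this.symm).resolve_left c0.ne'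

theorem LD_hor (h : LD α β f x) {v : E} (hv : α x v = 0) : β (f x) (D E F f x v) = 0 := by
  obtain ⟨c, -, hc⟩ := h.cf
  rw [hc, hv, mul_zero]
end

variable {χ : ℝ → ℝ} {K : H ≃ H} {p v : H} {c C C₁ b T A : ℝ}

theorem per_bd (t : Tub c C K) (c0 : 0 < c) (l : ∀ p : H, T ≤ p.2.2 → LH K p) :
    ∃ M S, 0 ≤ M ∧ ∀ p : H, S ≤ p.2.2 → rho p ≤ C → ‖fderiv ℝ K p‖ ≤ M := by
  set S := max T C + 1
  have s1 : T < S := (le_max_left _ _).trans_lt (lt_add_one _)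
  have s2 : C < S := (le_max_right _ _).trans_lt (lt_add_one _)
  have C0 := t.1
  have c3 : Continuous fun p : H => p.2.2 := by fun_prop
  have cQ : IsCompact {p : H | rho p ≤ C ∧ S ≤ p.2.2 ∧ p.2.2 ≤ S + c} := by
    refine (cpt_gau (C ^ 2 + (S + c) ^ 2)).of_isClosed_subset
      ((isClosed_le (continuous_iff_continuousAt.2 fun p => (cd_rho p).continuousAt)
        continuous_const).inter ((isClosed_le continuous_const c3).inter
          (isClosed_le c3 continuous_const))) fun p hp => ?_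
    exact add_le_add (pow_le_pow_left₀ (rho_nn _) hp.1 2)
      (pow_le_pow_left₀ (by linarith [hp.2.1]) hp.2.2 2)
  obtain ⟨M, hM⟩ := cQ.exists_bound_of_continuousOn (f := fderiv ℝ K) fun p hp =>
    ((l p (by linarith [hp.2.1])).sm.contDiffAt.continuousAt_fderiv (by simp)).continuousWithinAt
  have key : ∀ n : ℕ, ∀ p : H, S ≤ p.2.2 → p.2.2 ≤ S + c * (n + 1) → rho p ≤ C →
      ‖fderiv ℝ K p‖ ≤ M := by
    intro n
    induction n with
    | zero => exact fun p h1 h2 h3 => hM p ⟨h3, h1, by simpa using h2⟩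
    | succ n ih =>
      intro p h1 h2 h3
      by_cases a : p.2.2 ≤ S + c
      · exact hM p ⟨h3, h1, a⟩
      obtain ⟨q, rfl⟩ : ∃ q, vt c q = p := ⟨_, vt_neg' c p⟩
      rw [vt_t] at a h2
      have e : ∀ x, vt c x = x + (0, 0, c) := fun x => by
        refine Prod.ext ?_ (Prod.ext ?_ rfl) <;> simp [vt]
      have e1 : (fun x => K (x + (0, 0, c))) =ᶠ[𝓝 q] fun x => K x + (0, 0, c) := by
        filter_upwards [continuousAt_const.eventually_lt c3.continuousAt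
          (show C < q.2.2 by linarith)] with x hx
        rw [← e, ← e, t.2.2.2 x hx.le]
      rw [e, ← fderiv_comp_add_right, e1.fderiv_eq, fderiv_add_const]
      refine ih q (by linarith) ?_ h3
      push_cast at h2
      linarith
  refine ⟨|M|, S, abs_nonneg M, fun p h1 h2 => (key ⌈(p.2.2 - S) / c⌉₊ p h1 ?_ h2).trans
    (le_abs_self M)⟩
  have := Nat.le_ceil ((p.2.2 - S) / c)
  rw [div_le_iff₀ c0] at this
  linarith

theorem mu_le (h : Inc χ) {s : ℝ} (hA : |deriv (deriv χ) s| ≤ A * deriv χ s) (x : ℝ) :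
    ‖((deriv (deriv χ) s / (2 * la χ s) * x : ℝ) : ℂ)‖ ≤ A / 2 * (la χ s * |x|) := by
  have l := h.la_pos s
  rw [norm_real, Real.norm_eq_abs, abs_mul, abs_div, abs_of_pos (mul_pos two_pos l), ← mul_assoc]
  refine mul_le_mul_of_nonneg_right ?_ (abs_nonneg x)
  rw [div_le_iff₀ (mul_pos two_pos l)]
  rw [← h.la_sq] at hA
  linarith

theorem n1_le (v : H) : ‖v.1‖ ≤ ‖v‖ ∧ ‖v.2.1‖ ≤ ‖v‖ ∧ |v.2.2| ≤ ‖v‖ :=
  ⟨norm_fst_le v, (norm_fst_le v.2).trans (norm_snd_le v), (norm_snd_le v.2).trans (norm_snd_le v)⟩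

theorem fd_up (h : Inc χ) (A0 : 0 ≤ A) (C0 : 0 ≤ C)
    (hA : |deriv (deriv χ) p.2.2| ≤ A * deriv χ p.2.2) (hp : rho p ≤ C) (h1 : la χ p.2.2 ≤ 1)
    (v : H) : ‖fderiv ℝ (Th χ) p v‖ ≤ la χ p.2.2 * ((1 + A * (C + 1)) * ‖v‖) := by
  have l := h.la_pos p.2.2
  have m := mu_le h hA v.2.2
  obtain ⟨a1, a2, a3⟩ := n1_le v
  have v0 := norm_nonneg v
  have b0 : 0 ≤ la χ p.2.2 * (A * (C + 1) * ‖v‖) := by positivity
  have k : ∀ z x : ℂ, ‖z‖ ≤ C + 1 → ‖x‖ ≤ ‖v‖ →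
      ‖((deriv (deriv χ) p.2.2 / (2 * la χ p.2.2) * v.2.2 : ℝ) : ℂ) * z + la χ p.2.2 * x‖ ≤
        la χ p.2.2 * ((1 + A * (C + 1)) * ‖v‖) := fun z x hz hx => by
    refine (norm_add_le _ _).trans ?_
    rw [norm_mul, norm_mul, norm_real (la χ p.2.2), Real.norm_of_nonneg l.le]
    have e1 := mul_le_mul (m.trans (mul_le_mul_of_nonneg_left
      (mul_le_mul_of_nonneg_left a3 l.le) (by positivity))) hz (norm_nonneg _) (by positivity)
    have e2 := mul_le_mul_of_nonneg_left hx l.le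
    linarith
  rw [h.fd]
  refine norm_prod_le_iff.2 ⟨k _ _ (nz_le hp).1 a1, norm_prod_le_iff.2 ⟨k _ _ (nz_le hp).2 a2, ?_⟩⟩
  change |deriv χ p.2.2 * v.2.2| ≤ _
  rw [abs_mul, abs_of_pos (h.2 _), ← h.la_sq]
  have e1 := mul_le_mul_of_nonneg_left a3 l.le
  have e2 : la χ p.2.2 * (la χ p.2.2 * |v.2.2|) ≤ 1 * (la χ p.2.2 * |v.2.2|) :=
    mul_le_mul_of_nonneg_right h1 (by positivity)
  linarith

theorem fd_low (h : Inc χ) (A0 : 0 ≤ A) (C0 : 0 ≤ C)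
    (hA : |deriv (deriv χ) p.2.2| ≤ A * deriv χ p.2.2) (hp : rho p ≤ C) (hv : aH p v = 0) :
    la χ p.2.2 * ‖v‖ ≤ (1 + 2 * A * (C + 1) ^ 2 + 4 * (C + 1)) * ‖fderiv ℝ (Th χ) p v‖ := by
  have l := h.la_pos p.2.2
  have m := mu_le h hA v.2.2
  obtain ⟨a1, a2, -⟩ := n1_le (fderiv ℝ (Th χ) p v)
  have w0 := norm_nonneg (fderiv ℝ (Th χ) p v)
  have e : la χ p.2.2 * v.2.2 = -(2 * th p (fderiv ℝ (Th χ) p v)) := by
    rw [h.fd]
    simp only [aH, th, mul_im, mul_re, add_re, add_im, conj_re, conj_im, ofReal_re, ofReal_im] at hv ⊢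
    linear_combination la χ p.2.2 * hv
  have i : ∀ z x : ℂ, ‖z‖ ≤ C + 1 → ‖x‖ ≤ ‖fderiv ℝ (Th χ) p v‖ →
      |(conj z * x).im| ≤ (C + 1) * ‖fderiv ℝ (Th χ) p v‖ := fun z x hz hx => by
    refine (abs_im_le_norm _).trans ?_
    rw [norm_mul, norm_conj]
    exact mul_le_mul hz hx (norm_nonneg _) (by positivity)
  have e3 : la χ p.2.2 * |v.2.2| ≤ 4 * (C + 1) * ‖fderiv ℝ (Th χ) p v‖ := by
    rw [← abs_of_pos l, ← abs_mul, e, abs_neg, th]
    have := abs_le.1 (i _ _ (nz_le hp).1 a1)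
    have := abs_le.1 (i _ _ (nz_le hp).2 a2)
    exact abs_le.2 ⟨by linarith, by linarith⟩
  have k : ∀ z x : ℂ, ‖z‖ ≤ C + 1 →
      ‖((deriv (deriv χ) p.2.2 / (2 * la χ p.2.2) * v.2.2 : ℝ) : ℂ) * z + la χ p.2.2 * x‖ ≤
        ‖fderiv ℝ (Th χ) p v‖ → la χ p.2.2 * ‖x‖ ≤
        (1 + 2 * A * (C + 1) ^ 2 + 4 * (C + 1)) * ‖fderiv ℝ (Th χ) p v‖ := fun z x hz hx => by
    have e1 := norm_sub_le (((deriv (deriv χ) p.2.2 / (2 * la χ p.2.2) * v.2.2 : ℝ) : ℂ) * z +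
      la χ p.2.2 * x) (((deriv (deriv χ) p.2.2 / (2 * la χ p.2.2) * v.2.2 : ℝ) : ℂ) * z)
    rw [add_sub_cancel_left, norm_mul, norm_mul, norm_real (la χ p.2.2),
      Real.norm_of_nonneg l.le] at e1
    have e2 := mul_le_mul (m.trans (mul_le_mul_of_nonneg_left e3 (by positivity))) hz
      (norm_nonneg _) (by positivity)
    have : 0 ≤ (C + 1) * ‖fderiv ℝ (Th χ) p v‖ := by positivity
    linarith
  have f := h.fd p v
  have b1 := k p.1 v.1 (nz_le hp).1 (by rw [f] at a1 ⊢; exact a1)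
  have b2 := k p.2.1 v.2.1 (nz_le hp).2 (by rw [f] at a2 ⊢; exact a2)
  have : 0 ≤ (1 + 2 * A * (C + 1) ^ 2) * ‖fderiv ℝ (Th χ) p v‖ := by positivity
  rw [Prod.norm_def v, Prod.norm_def v.2, mul_max_of_nonneg _ _ l.le, mul_max_of_nonneg _ _ l.le]
  exact max_le b1 (max_le b2 (by rw [Real.norm_eq_abs]; linarith))

theorem Stop.lip (h : Stop χ C C₁ b) (t : Tub c C K) (c0 : 0 < c)
    (l : ∀ p : H, T ≤ p.2.2 → LH K p) : ∃ B, ∀ᶠ q in 𝓝 (top b), DifferentiableAt ℝ (ext χ K) q ∧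
      ∀ w, aH q w = 0 → aH (ext χ K q) (fderiv ℝ (ext χ K) q w) = 0 ∧
        ‖fderiv ℝ (ext χ K) q w‖ ≤ B * ‖w‖ := by
  have C0 := t.1
  obtain ⟨M, S₁, M0, hM⟩ := per_bd t c0 l
  obtain ⟨A, S₂, A0, hA⟩ := h.reg
  obtain ⟨S₃, h3⟩ := h.small C0 one_pos
  set B := (A + 1) * ((1 + A * (C + 1)) * (M * (1 + 2 * A * (C + 1) ^ 2 + 4 * (C + 1))))
  have B0 : 0 ≤ B := by positivity
  have one : ∀ w : H, ‖w‖ ≤ (B + 1) * ‖w‖ := fun w => by nlinarith [norm_nonneg w]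
  refine ⟨B + 1, ?_⟩
  filter_upwards [continuousAt_const.eventually_lt (cd3 (top b)).continuousAt
    (h.lt (max (max T S₁) (max S₂ S₃) + C))] with q hq
  rcases le_or_gt b q.2.2 with a | a
  · by_cases a' : q = top b
    · subst a'
      refine ⟨(h.fd t).differentiableAt, fun w hw => ?_⟩
      rw [(h.fd t).fderiv, h.fix]
      exact ⟨hw, one w⟩
    · have e : ext χ K =ᶠ[𝓝 q] _root_.id := h.near t a a'
      refine ⟨differentiableAt_id.congr_of_eventuallyEq e, fun w hw => ?_⟩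
      rw [e.fderiv_eq, e.self_of_nhds, fderiv_id]
      exact ⟨hw, one w⟩
  obtain ⟨s, hs⟩ := h.range a
  obtain ⟨p, rfl⟩ := h.inc.range hs
  have a1 : max (max T S₁) (max S₂ S₃) + C < p.2.2 := h.inc.mono.lt_iff_lt.1 hq
  have m1 := (le_max_left T S₁).trans (le_max_left _ (max S₂ S₃))
  have m2 := (le_max_right T S₁).trans (le_max_left _ (max S₂ S₃))
  have m3 := (le_max_left S₂ S₃).trans (le_max_right (max T S₁) _)
  have m4 := (le_max_right S₂ S₃).trans (le_max_right (max T S₁) _)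
  have lK := l p (by linarith)
  have lg := LH_ext h.inc lK
  refine ⟨cd_diff lg.sm.contDiffAt, fun w hw => ⟨D_vec (ext χ K) _ ▸ LD_hor lg hw, ?_⟩⟩
  obtain ⟨v, rfl, hv⟩ := LD_surj (h.inc.lh p) w
  have e : fderiv ℝ (ext χ K) (Th χ p) (D H H (Th χ) p v) =
      fderiv ℝ (Th χ) (K p) (fderiv ℝ K p v) := by
    rw [← D_vec, ← D_vec, ← D_vec, ← D_comp lg.sm (h.inc.lh p).sm, ← D_comp (h.inc.lh _).sm lK.sm]
    simp only [ext_Th h.inc]
  rw [e, D_vec]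
  by_cases r : C < rho p
  · have e1 : K =ᶠ[𝓝 p] _root_.id :=
      (continuousAt_const.eventually_lt (cd_rho p).continuousAt r).mono
      fun x hx => t.2.1 x (Or.inl hx)
    rw [e1.fderiv_eq, e1.self_of_nhds, fderiv_id]
    exact one _
  have d := abs_le.1 (t.2.2.1 p)
  have l1 := h.inc.la_pos p.2.2
  have l2 := h.inc.la_pos (K p).2.2
  have u1 := fd_up h.inc A0 C0 (hA (K p).2.2 (by linarith)).1 (t.rho_le (not_lt.1 r))
    (Real.sqrt_le_one.2 (h3 _ (by linarith))) (fderiv ℝ K p v)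
  have u2 := (fderiv ℝ K p).le_of_opNorm_le (hM p (by linarith) (not_lt.1 r)) v
  have u3 := fd_low h.inc A0 C0 (hA p.2.2 (by linarith)).1 (not_lt.1 r) (hv hw)
  have u4 : la χ (K p).2.2 ≤ (A + 1) * la χ p.2.2 := by
    refine le_of_sq_le_sq ?_ (by positivity)
    rw [mul_pow, h.inc.la_sq, h.inc.la_sq]
    exact ((hA p.2.2 (by linarith)).2 _ (t.2.2.1 p)).trans
      (mul_le_mul_of_nonneg_right (by nlinarith) (h.inc.2 _).le)
  calc _ ≤ _ := u1
    _ ≤ (A + 1) * la χ p.2.2 * ((1 + A * (C + 1)) * (M * ‖v‖)) := by gcongr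
    _ = (A + 1) * ((1 + A * (C + 1)) * (M * (la χ p.2.2 * ‖v‖))) := by ring
    _ ≤ (A + 1) * ((1 + A * (C + 1)) * (M * ((1 + 2 * A * (C + 1) ^ 2 + 4 * (C + 1)) *
        ‖fderiv ℝ (Th χ) p v‖))) := by gcongr
    _ = B * ‖fderiv ℝ (Th χ) p v‖ := by ring
    _ ≤ _ := by nlinarith [norm_nonneg (fderiv ℝ (Th χ) p v)]

end
end Pool.Agent.Lib.MP_efe47c_gt.C
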