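import Pool.Agent.Lib.MP_efe47c_gt.C.Th

/-! A shift along the upper half of the vertical axis, supported in a tube. -/

namespace Pool.Agent.Lib.MP_efe47c_gt.C
open Set Filter Topology Complex Function
open scoped ContDiff ComplexConjugate

noncomputable section

theorem LH_symm {φ : H ≃ H} (h : ∀ p, LH φ p) (p : H) : LH φ.symm p :=
  (h (φ.symm p)).symm' (.of_forall φ.symm_apply_apply) (φ.apply_symm_apply p)

theorem fix_symm {φ : H ≃ H} {p : H} (h : φ p = p) : φ.symm p = p := by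
  rw [Equiv.symm_apply_eq, h]

@[simp] theorem rho_vt (s : ℝ) (p : H) : rho (vt s p) = rho p := rfl

def cjE (φ : H ≃ H) (s : ℝ) : H ≃ H :=
  ⟨cj φ s, cj φ.symm s, fun p => by simp [cj, vt_neg, vt_neg'], fun p => by simp [cj, vt_neg, vt_neg']⟩

theorem cjE_eq (φ : H ≃ H) (s : ℝ) (p : H) : cjE φ s p = vt s (φ (vt (-s) p)) := rfl

theorem LH_cj {φ : H → H} (h : ∀ p, LH φ p) (s : ℝ) (p : H) : LH (cj φ s) p :=
  (LH_vt s _).comp ((h _).comp (LH_vt _ p))

theorem cj_fix {φ : H → H} {s : ℝ} {p : H} (h : φ (vt (-s) p) = vt (-s) p) : cj φ s p = p := by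
  rw [cj, h, vt_neg']

/-- A linear contact map. -/
def st (m : ℝ) (p : H) : H := (((m * p.1.re : ℝ) : ℂ) + ((m⁻¹ * p.1.im : ℝ) : ℂ) * I, p.2.1, p.2.2)

theorem st_st {m : ℝ} (h : m ≠ 0) (p : H) : st m⁻¹ (st m p) = p := by
  refine Prod.ext ?_ rfl
  apply Complex.ext <;> simp [st] <;> field_simp

theorem cd_st (m : ℝ) (p : H) : ContDiffAt ℝ ∞ (st m) p :=
  ((cd_of (contDiffAt_const.mul (cd_re (cd1 p)))).add
    ((cd_of (contDiffAt_const.mul (cd_im (cd1 p)))).mul contDiffAt_const)).prodMk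
      ((cd2 p).prodMk (cd3 p))

theorem LH_st {m : ℝ} (h : m ≠ 0) (p : H) : LH (st m) p := by
  refine LD.of_vec (cd_st m p) (cd_st m⁻¹ _) (.of_forall (st_st h))
    (.of_forall fun q => by have := st_st (inv_ne_zero h) q; rwa [inv_inv] at this) one_pos
    fun v => ?_
  have e := (((hd_re (hd1 p v)).const_mul m).ofReal_comp.add
    (((hd_im (hd1 p v)).const_mul m⁻¹).ofReal_comp.mul_const I)).prodMk
      ((hd2 p v).prodMk (hd3 p v))
  rw [fd_line (cd_st m p) e]
  simp only [aH, th, st, mul_im, mul_re, add_re, add_im, conj_re, conj_im,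
    ofReal_re, ofReal_im, I_re, I_im]
  field_simp
  ring

theorem rho_st {m : ℝ} (p : H) :
    rho (st m p) = (m * p.1.re) ^ 2 + (m⁻¹ * p.1.im) ^ 2 + normSq p.2.1 := by
  simp [rho, st, normSq_apply]; ring

theorem rho_st_le {m : ℝ} (h : 1 ≤ m) (p : H) : rho (st m p) ≤ m ^ 2 * rho p ∧
    rho (st m⁻¹ p) ≤ m ^ 2 * rho p := by
  have h1 : m⁻¹ ^ 2 ≤ m ^ 2 := pow_le_pow_left₀ (by positivity)
    ((inv_le_one_of_one_le₀ h).trans h) 2
  have h2 : 1 ≤ m ^ 2 := one_le_pow₀ h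
  have h3 := normSq_nonneg p.2.1
  have e : rho p = p.1.re ^ 2 + p.1.im ^ 2 + normSq p.2.1 := by simp [rho, normSq_apply]; ring
  rw [rho_st, rho_st, inv_inv, e]
  constructor <;> nlinarith [sq_nonneg p.1.re, sq_nonneg p.1.im]

theorem re_rho (p : H) : p.1.re ^ 2 ≤ rho p := by
  have h3 := normSq_nonneg p.2.1
  have e : rho p = p.1.re ^ 2 + p.1.im ^ 2 + normSq p.2.1 := by simp [rho, normSq_apply]; ring
  nlinarith [sq_nonneg p.1.im]

theorem exists_mv0 {c : ℝ} (hc : 0 ≤ c) : ∃ (Y : H ≃ H) (C : ℝ), (∀ p, LH Y p) ∧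
    (∀ q, gau q < 1 → Y (vt (-(c / 4)) q) = vt (c / 4) q) ∧
    ∀ p : H, C < rho p ∨ c / 4 + 12 ≤ |p.2.2| → Y p = p := by
  obtain ⟨W₁, a1, a2, a3⟩ := exists_step (s₁ := -(c / 4) - 2) (s₂ := -(c / 4) - 1) (a := c / 2)
    (by linarith) (by linarith)
  obtain ⟨W₂, b1, b2, b3⟩ := exists_step (s₁ := c / 4 + 1) (s₂ := c / 4 + 2) (a := c / 2)
    (by linarith) (by linarith)
  set W := W₁.trans W₂.symm
  have eW : ∀ p, W p = W₂.symm (W₁ p) := fun _ => rfl
  have lW : ∀ p, LH W p := fun p => (LH_symm b1 _).comp (a1 p)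
  have w1 : ∀ p : H, p.2.2 < -(c / 4) - 2 → W p = p := fun p hp => by
    rw [eW, a2 p hp, fix_symm (b2 p (by linarith))]
  have w2 : ∀ p : H, c / 4 + 2 < p.2.2 → W p = p := fun p hp => by
    rw [eW, a3 p (by linarith), Equiv.symm_apply_eq, b3 p hp]
  obtain ⟨R₀, r1, r2, r3⟩ := exists_down (u₁ := 36) (u₂ := 49) (δ := 1) (by norm_num)
    (by norm_num) one_pos
  set R := cjE R₀ (-(c / 4) - 4)
  have lR : ∀ p, LH R p := LH_cj r1 _
  have cK : IsCompact (vt (-(c / 4) - 4) '' {p | gau p ≤ 49}) :=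
    (cpt_gau 49).image (continuous_iff_continuousAt.2 fun p => (LH_vt _ p).cont)
  have rK : ∀ p, p ∉ vt (-(c / 4) - 4) '' {p | gau p ≤ 49} → R p = p := fun p hp =>
    cj_fix (r2 _ (not_le.1 fun h => hp ⟨_, h, vt_neg' _ _⟩))
  obtain ⟨C, hC⟩ := ((cK.union (cK.image (continuous_iff_continuousAt.2 fun p =>
    (lW p).cont))).image (continuous_iff_continuousAt.2 fun p => (cd_rho p).continuousAt)).bddAbove
  refine ⟨((R.trans W.symm).trans R.symm).trans W, C, fun p =>
    (lW _).comp ((LH_symm lR _).comp ((LH_symm lW _).comp (lR p))), fun q hq => ?_, fun p hp => ?_⟩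
  · change W (R.symm (W.symm (R _))) = _
    have g : rho q ^ 2 + q.2.2 ^ 2 < 1 := hq
    have t1 : q.2.2 < 1 := by nlinarith [sq_nonneg (rho q)]
    have t2 : -1 < q.2.2 := by nlinarith [sq_nonneg (rho q)]
    have h1 : gau (R₀ (vt (-(-(c / 4) - 4)) (vt (-(c / 4)) q))) ≤ 1 := r3 _ (by
      have : (vt (-(-(c / 4) - 4)) (vt (-(c / 4)) q)).2.2 = q.2.2 + 4 := by simp; ring
      rw [gau, this, rho_vt, rho_vt]
      nlinarith)
    have h2 : (R (vt (-(c / 4)) q)).2.2 < -(c / 4) - 2 := by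
      rw [cjE_eq, vt_t]
      unfold gau at h1
      nlinarith [sq_nonneg (rho (R₀ (vt (-(-(c / 4) - 4)) (vt (-(c / 4)) q))))]
    rw [fix_symm (w1 _ h2), R.symm_apply_apply, eW, a3 _ (by simp; linarith), vt_vt,
      show -(c / 4) + c / 2 = c / 4 by ring, fix_symm (b2 _ (by simp; linarith))]
  · change W (R.symm (W.symm (R p))) = p
    rcases hp with hp | hp
    · have n1 : p ∉ vt (-(c / 4) - 4) '' {p | gau p ≤ 49} := fun h =>
        (hC ⟨p, Or.inl h, rfl⟩).not_gt hp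
      have n2 : W.symm p ∉ vt (-(c / 4) - 4) '' {p | gau p ≤ 49} := fun h =>
        (hC ⟨p, Or.inr ⟨_, h, W.apply_symm_apply p⟩, rfl⟩).not_gt hp
      rw [rK p n1, fix_symm (rK _ n2), W.apply_symm_apply]
    · have n1 : R p = p := rK p (by
        rintro ⟨q, hq, rfl⟩
        have g : rho q ^ 2 + q.2.2 ^ 2 ≤ 49 := hq
        rw [vt_t] at hp
        rcases le_abs.1 hp with h | h <;> nlinarith [sq_nonneg (rho q)])
      have n2 : W p = p := by
        rcases le_abs.1 hp with h | h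
        · exact w2 p (by linarith)
        · exact w1 p (by linarith)
      rw [n1, fix_symm n2, fix_symm n1, n2]

theorem exists_mv {c : ℝ} (hc : 0 ≤ c) : ∃ (Y : H ≃ H) (C : ℝ), (∀ p, LH Y p) ∧
    (∀ q, gau q ≤ 1 / 100 → Y (vt (-(c / 4)) q) = vt (c / 4) q) ∧
    ∀ p : H, p.1.re < -2 / 3 ∨ C < rho p ∨ c / 4 + 12 ≤ |p.2.2| → Y p = p := by
  obtain ⟨Y, C, y1, y2, y3⟩ := exists_mv0 hc
  obtain ⟨m, m1, m2⟩ : ∃ m : ℝ, 1 ≤ m ∧ C < (m * (2 / 3)) ^ 2 :=
    ⟨3 * (|C| + 1), by linarith [abs_nonneg C], by nlinarith [abs_nonneg C, le_abs_self C]⟩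
  have m0 : m ≠ 0 := by linarith
  let A : H ≃ H := ⟨st m, st m⁻¹, st_st m0, fun q => by
    have := st_st (inv_ne_zero m0) q; rwa [inv_inv] at this⟩
  have lA : ∀ p, LH A p := LH_st m0
  obtain ⟨S, s1, s2, s3⟩ := exists_down (u₁ := 1 / 100) (u₂ := 1 / 50) (δ := 1 / (2 * m ^ 4))
    (by norm_num) (by norm_num) (by positivity)
  refine ⟨(((cjE S (-(c / 4))).trans A).trans Y).trans (A.symm.trans (cjE S.symm (c / 4))),
    m ^ 2 * |C| + 1, fun p => (LH_cj (LH_symm s1) _ _).comp ((LH_symm lA _).comp ((y1 _).comp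
      ((lA _).comp (LH_cj s1 _ p)))), fun q hq => ?_, fun p hp => ?_⟩
  · change cj S.symm _ (A.symm (Y (A (cj S _ _)))) = _
    have e : ∀ s p, A (vt s p) = vt s (A p) := fun _ _ => rfl
    have h1 : gau (A (S q)) < 1 := by
      have g := s3 q hq
      have g1 := (rho_st_le m1 (S q)).1
      have g2 : rho (st m (S q)) ^ 2 ≤ (m ^ 2 * rho (S q)) ^ 2 :=
        pow_le_pow_left₀ (rho_nn _) g1 2
      have g3 : 1 ≤ m ^ 4 := one_le_pow₀ m1
      rw [le_div_iff₀ (by positivity), gau] at g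
      change rho (st m (S q)) ^ 2 + (S q).2.2 ^ 2 < 1
      nlinarith [sq_nonneg (S q).2.2]
    rw [cj, cj, vt_neg, e, y2 _ h1, ← e, A.symm_apply_apply, vt_neg, S.symm_apply_apply]
  · change cj S.symm _ (A.symm (Y (A (cj S _ p)))) = p
    have a0 := abs_nonneg C
    have k : ∀ s, |s| ≤ c / 4 → S (vt s p) = vt s p := fun s hs => s2 _ (by
      rw [gau, rho_vt, vt_t]
      rcases hp with h | h | h
      · have : 4 / 9 < rho p := by nlinarith [re_rho p]
        nlinarith [sq_nonneg (p.2.2 + s)]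
      · have : 1 < rho p := by nlinarith [sq_nonneg m]
        nlinarith [sq_nonneg (p.2.2 + s)]
      · have := abs_le.1 hs
        rcases le_abs.1 h with h | h <;> nlinarith [sq_nonneg (rho p)])
    have ac : |c / 4| ≤ c / 4 := (abs_of_nonneg (by linarith)).le
    have k2 : Y (A p) = A p := y3 _ (by
      rcases hp with h | h | h
      · left
        have := re_rho (st m p)
        have e : (st m p).1.re = m * p.1.re := by simp [st]
        rw [e] at this
        have h2 : (m * (2 / 3)) ^ 2 ≤ (m * p.1.re) ^ 2 := by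
          rw [mul_pow, mul_pow]
          exact mul_le_mul_of_nonneg_left (by nlinarith) (sq_nonneg m)
        exact m2.trans_le (h2.trans this)
      · left
        have := (rho_st_le m1 (st m p)).2
        rw [st_st m0] at this
        have h2 : |C| < rho (st m p) := lt_of_mul_lt_mul_left (a := m ^ 2) (by linarith) (sq_nonneg m)
        exact (le_abs_self C).trans_lt h2
      · exact Or.inr h)
    rw [cj_fix (φ := S) (k _ (by rwa [neg_neg])), k2, A.symm_apply_apply,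
      cj_fix (fix_symm (k _ (by rwa [abs_neg])))]

/-- Supported in an upper half tube, with bounded vertical displacement, periodic far up. -/
def Tub (c C : ℝ) (G : H → H) : Prop :=
  0 ≤ C ∧ (∀ p : H, C < rho p ∨ p.2.2 < -C → G p = p) ∧ (∀ p, |(G p).2.2 - p.2.2| ≤ C) ∧
    ∀ p : H, C ≤ p.2.2 → G (vt c p) = vt c (G p)

variable {c C C' L : ℝ}

theorem Tub.mono {G : H → H} (h : Tub c C G) (e : C ≤ C') : Tub c C' G :=
  ⟨h.1.trans e, fun p hp => h.2.1 p (hp.imp e.trans_lt fun a => by linarith),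
    fun p => (h.2.2.1 p).trans e, fun p hp => h.2.2.2 p (e.trans hp)⟩

theorem Tub.comp {G G' : H → H} (h : Tub c C G) (h' : Tub c C' G') :
    Tub c (C + C') fun p => G' (G p) := by
  have := h.1
  have := h'.1
  refine ⟨by linarith, fun p hp => ?_, fun p => ?_, fun p hp => ?_⟩
  · simp only [(h.mono (C' := C + C') (by linarith)).2.1 p hp,
      (h'.mono (C' := C + C') (by linarith)).2.1 p hp]
  · have := abs_le.1 (h.2.2.1 p)
    have := abs_le.1 (h'.2.2.1 (G p))
    exact abs_le.2 ⟨by linarith, by linarith⟩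
  · have := abs_le.1 (h.2.2.1 p)
    simp only [h.2.2.2 p (by linarith), h'.2.2.2 (G p) (by linarith)]

theorem Tub.symm {G : H ≃ H} (h : Tub c C G) : Tub c (2 * C) G.symm := by
  have := h.1
  have d : ∀ p, |(G.symm p).2.2 - p.2.2| ≤ C := fun p => by
    have := h.2.2.1 (G.symm p)
    rwa [G.apply_symm_apply, abs_sub_comm] at this
  refine ⟨by linarith, fun p hp => fix_symm ((h.mono (C' := 2 * C) (by linarith)).2.1 p hp),
    fun p => by linarith [d p], fun p hp => ?_⟩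
  rw [Equiv.symm_apply_eq, h.2.2.2 _ (by linarith [abs_le.1 (d p)]), G.apply_symm_apply]

theorem Tub.cj {G : H → H} (h : Tub c C G) {s : ℝ} (s0 : 0 ≤ s) : Tub c (C + s) (cj G s) := by
  have := h.1
  refine ⟨by linarith, fun p hp => cj_fix (h.2.1 _ (hp.imp (fun a => by simp; linarith)
    fun a => by simp; linarith)), fun p => ?_, fun p hp => ?_⟩
  · have := abs_le.1 (h.2.2.1 (vt (-s) p))
    simp only [vt_t, MP_efe47c_gt.cj] at this ⊢
    exact abs_le.2 ⟨by linarith, by linarith⟩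
  · have e : ∀ a b q, vt a (vt b q) = vt b (vt a q) := fun a b q => by
      rw [vt_vt, vt_vt, add_comm]
    rw [MP_efe47c_gt.cj, MP_efe47c_gt.cj, e, h.2.2.2 _ (by simp; linarith), e]

theorem tub_fam {φ : H ≃ H} (h : Sup φ L) (L0 : 0 < L) (hc : 2 * L < c) (C0 : 0 ≤ C)
    (hC : ∀ p, C < rho p → φ p = p) {n : ℤ} (n0 : 0 ≤ n) (n1 : n ≤ 1) :
    Tub c (C + 2 * c) (fam φ c n) := by
  have c0 : 0 < c := by linarith
  refine ⟨by linarith, fun p hp => ?_, fun p => ?_, fun p hp => ?_⟩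
  · rw [fam]
    split_ifs with hn
    · rcases hp with a | a
      · exact cj_fix (hC _ (by simp; linarith))
      · have h1 : (0 : ℝ) ≤ sl c p := by exact_mod_cast n0.trans hn
        have := abs_le.1 (sl_le c0 p)
        nlinarith
    · rfl
  · rw [fam]
    split_ifs with hn
    · by_cases h1 : L ≤ |p.2.2 - c * sl c p|
      · rw [h.cj h1]; simp; linarith
      · have h2 := abs_lt.1 (not_le.1 h1)
        have := abs_lt.1 (h.lt (p := vt (-(c * sl c p)) p)
          (by simpa [sub_eq_add_neg] using not_le.1 h1))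
        simp only [MP_efe47c_gt.cj, vt_t]
        exact abs_le.2 ⟨by linarith, by linarith⟩
    · simp; linarith
  · have h5 := abs_le.1 (sl_le c0 p)
    have h1 : (1 : ℤ) ≤ sl c p := by
      by_contra k
      have : (sl c p : ℝ) ≤ 0 := by exact_mod_cast (by omega : sl c p ≤ 0)
      nlinarith
    have e : sl c (vt c p) = sl c p + 1 := by
      rw [sl, sl, vt_t, add_div, div_self c0.ne', round_add_one]
    rw [fam, fam, e, if_pos (by omega), if_pos (by omega), MP_efe47c_gt.cj, MP_efe47c_gt.cj,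
      vt_vt, vt_vt]
    congr 2
    · push_cast; ring
    · congr 1; push_cast; ring

theorem exists_shift (hc : 48 < c) : ∃ (r : H ≃ H) (C : ℝ), (∀ p, LH r p) ∧ Tub c C r ∧
    (∀ k : ℤ, 0 ≤ k → ∀ q, gau q ≤ 1 / 100 → r (vt (c * k) q) = vt c (vt (c * k) q)) ∧
    ∀ p : H, p.1.re < -2 / 3 → r p = p := by
  obtain ⟨Y, C, y1, y2, y3⟩ := exists_mv (c := c) (by linarith)
  have sY : Sup Y (c / 4 + 12) := fun p hp => y3 p (Or.inr (Or.inr hp))
  have L0 : 0 < c / 4 + 12 := by linarith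
  have h2 : 2 * (c / 4 + 12) < c := by linarith
  set F := famE Y sY L0 h2 0
  have lF : ∀ p, LH F p := fun p => LH_fam sY L0 h2 fun k _ => y1 _
  have tF : Tub c (|C| + 2 * c) F := tub_fam sY L0 h2 (abs_nonneg C)
    (fun p hp => y3 p (Or.inr (Or.inl ((le_abs_self C).trans_lt hp)))) le_rfl zero_le_one
  have fF : ∀ p : H, p.1.re < -2 / 3 → F p = p := fun p hp => by
    change fam Y c 0 p = p
    rw [fam]
    split_ifs
    · exact cj_fix (y3 _ (Or.inl hp))
    · rfl
  have mF : ∀ k : ℤ, 0 ≤ k → ∀ q, gau q ≤ 1 / 100 →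
      F (vt (c * k) (vt (-(c / 4)) q)) = vt (c * k) (vt (c / 4) q) := fun k hk q hq => by
    change fam Y c 0 _ = _
    have g : rho q ^ 2 + q.2.2 ^ 2 ≤ 1 / 100 := hq
    have t1 : q.2.2 < 1 := by nlinarith [sq_nonneg (rho q)]
    have t2 : -1 < q.2.2 := by nlinarith [sq_nonneg (rho q)]
    rw [fam_vt sY L0 h2 (by rw [vt_t]; exact abs_lt.2 ⟨by linarith, by linarith⟩), if_pos hk,
      y2 q hq]
  refine ⟨(cjE F (c / 4)).trans (cjE F (3 * c / 4)), _, fun p => (LH_cj lF _ _).comp (LH_cj lF _ p),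
    (tF.cj (s := c / 4) (by linarith)).comp (tF.cj (s := 3 * c / 4) (by linarith)),
    fun k hk q hq => ?_, fun p hp => ?_⟩
  · change cj F _ (cj F _ _) = _
    have e1 : vt (-(c / 4)) (vt (c * k) q) = vt (c * k) (vt (-(c / 4)) q) := by
      rw [vt_vt, vt_vt, add_comm]
    have e2 : vt (-(3 * c / 4)) (vt (c / 4) (vt (c * k) (vt (c / 4) q))) =
        vt (c * k) (vt (-(c / 4)) q) := by
      simp only [vt_vt]; congr 1; ring
    rw [cj, cj, e1, mF k hk q hq, e2, mF k hk q hq]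
    simp only [vt_vt]; congr 1; ring
  · change cj F _ (cj F _ p) = p
    rw [cj_fix (φ := F) (p := p) (fF _ hp), cj_fix (fF _ hp)]

end
end Pool.Agent.Lib.MP_efe47c_gt.C
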