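import Pool.Agent.Lib.MP_efe47c_gt.C.Mv

/-! The swindle with a shift supported in a tube. -/

namespace Pool.Agent.Lib.MP_efe47c_gt.C
open Set Filter Topology Cardinal Metric
open scoped ContDiff Manifold

noncomputable section

def N0 : Set H := {p | gau p < 1 / 100}

theorem open_N0 : IsOpen N0 := isOpen_lt cont_gau continuous_const

theorem N0_t {p : H} (h : p ∈ N0) : |p.2.2| < 1 ∧ rho p < 1 / 9 ∧ -1 / 3 < p.1.re := by
  have g : rho p ^ 2 + p.2.2 ^ 2 < 1 / 100 := h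
  have r : rho p < 1 / 9 := by nlinarith [sq_nonneg p.2.2]
  exact ⟨abs_lt.2 ⟨by nlinarith [sq_nonneg (rho p)], by nlinarith [sq_nonneg (rho p)]⟩, r,
    by nlinarith [re_rho p]⟩

variable {L C : ℝ}

theorem swindle_K (φ : H ≃ H) (h : Sup φ L) (L1 : 1 ≤ L) (C0 : 0 ≤ C)
    (hC : ∀ p, C < rho p → φ p = p) {D₁ D₂ O₁ O₂ : Set H}
    (d1 : D₁ ⊆ N0) (d2 : D₂ ⊆ N2 L) (o1 : IsOpen O₁) (o2 : IsOpen O₂)
    (a1 : ∀ p ∈ D₁, φ p ∈ O₁) (a2 : ∀ p ∈ D₂, φ p ∈ O₂) (b1 : ∀ p, φ p ∈ O₁ → p ∈ N0)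
    (b2 : ∀ p, φ p ∈ O₂ → p ∈ N2 L) (hφ : ∀ p, p ∉ D₁ → p ∉ D₂ → LH φ p) :
    ∃ (K : H ≃ H) (c C' : ℝ), 0 < c ∧ Tub c C' K ∧ (∀ p, φ.symm p ∉ D₂ → LH K p) ∧
      ∀ p ∈ N2 L, K (φ p) = p := by
  have L0 : 0 < L := by linarith
  obtain ⟨c, hc, c48⟩ : ∃ c, 2 * L < c ∧ 48 < c := ⟨2 * L + 48, by linarith, by linarith⟩
  obtain ⟨r, Cr, r1, r2, r3, r4⟩ := exists_shift c48
  have tL : ∀ {p : H}, p ∈ N0 → |p.2.2| < L := fun hp => (N0_t hp).1.trans_le L1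
  set K : H ≃ H := ((famE φ h L0 hc 0).symm.trans r).trans (famE φ h L0 hc 1) with hK
  have eK : ∀ p, K p = fam φ c 1 (r (fam φ.symm c 0 p)) := fun _ => rfl
  have k0 : ∀ k : ℤ, 0 ≤ k → ∀ p : H, |p.2.2| < L →
      fam φ.symm c 0 (vt (c * k) (φ p)) = vt (c * k) p := fun k hk p hp => by
    rw [fam_vt h.symm L0 hc (h.lt hp), if_pos hk, φ.symm_apply_apply]
  have kA : ∀ k : ℤ, 0 ≤ k → ∀ p ∈ N0, K (vt (c * k) (φ p)) = vt c (vt (c * k) (φ p)) := by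
    intro k hk p hp
    have e : c * k + c = c * ((k + 1 : ℤ) : ℝ) := by push_cast; ring
    rw [eK, k0 k hk p (tL hp), r3 k hk p (le_of_lt hp), vt_vt, vt_vt, e, fam_vt h L0 hc (tL hp),
      if_pos (by omega)]
  have kB : ∀ k : ℤ, 0 ≤ k → ∀ p ∈ N2 L,
      K (vt (c * k) (φ p)) = if 1 ≤ k then vt (c * k) (φ p) else vt (c * k) p := by
    intro k hk p hp
    rw [eK, k0 k hk p hp.2, r4 (vt (c * k) p) hp.1, fam_vt h L0 hc hp.2]
  refine ⟨K, c, _, by linarith, ((tub_fam h.symm L0 hc C0 (fun p hp => fix_symm (hC p hp)) le_rfl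
    zero_le_one).comp r2).comp (tub_fam h L0 hc C0 hC zero_le_one le_rfl), fun p hp => ?_,
    fun p hp => by simpa using kB 0 le_rfl p hp⟩
  obtain ⟨q, rfl⟩ : ∃ q, fam φ c 0 q = p := (famE φ h L0 hc 0).surjective p
  have ev : ∀ (s : ℝ) {O : Set H} {x : H}, IsOpen O → vt (-s) x ∈ O →
      ∀ᶠ y in 𝓝 x, vt (-s) y ∈ O := fun s O x o hx => (LH_vt _ _).cont.eventually (o.mem_nhds hx)
  have e0 : ∀ k : ℤ, 0 ≤ k → |(vt (-(c * k)) q).2.2| < L →
      vt (-(c * k)) (fam φ c 0 q) = φ (vt (-(c * k)) q) := fun k hk hq => by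
    have := fam_vt (n := 0) (k := k) h L0 hc hq
    rw [vt_neg', if_pos hk] at this
    rw [this, vt_neg]
  by_cases c1 : ∃ k : ℤ, 0 ≤ k ∧ vt (-(c * k)) q ∈ D₁
  · obtain ⟨k, hk, hq⟩ := c1
    refine (LH_vt c _).congr ?_
    filter_upwards [ev (c * k) o1 (e0 k hk (tL (d1 hq)) ▸ a1 _ hq)] with y hy
    have := kA k hk _ (b1 (φ.symm (vt (-(c * k)) y)) (by simpa using hy))
    simpa only [φ.apply_symm_apply, vt_neg'] using this
  by_cases c2 : ∃ k : ℤ, 0 ≤ k ∧ vt (-(c * k)) q ∈ D₂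
  · obtain ⟨k, hk, hq⟩ := c2
    have k1 : 1 ≤ k := by
      by_contra k1
      obtain rfl : k = 0 := by omega
      have := e0 0 hk (d2 hq).2
      simp only [Int.cast_zero, mul_zero, neg_zero, vt_zero] at this hq
      rw [this, φ.symm_apply_apply] at hp
      exact hp hq
    refine (LD.refl aH _).congr ?_
    filter_upwards [ev (c * k) o2 (e0 k hk (d2 hq).2 ▸ a2 _ hq)] with y hy
    have := kB k hk _ (b2 (φ.symm (vt (-(c * k)) y)) (by simpa using hy))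
    simpa only [φ.apply_symm_apply, vt_neg', if_pos k1] using this
  push Not at c1 c2
  have l0 : LH (fam φ.symm c 0) (fam φ c 0 q) :=
    (LH_fam h L0 hc fun k hk => hφ _ (c1 k hk) (c2 k hk)).symm (.of_forall (fam_inv h L0 hc))
  have l1 : LH (fam φ c 1) (r q) := by
    refine LH_fam h L0 hc fun k hk => hφ _ (fun m => ?_) fun m => ?_
    · have h1 := r3 (k - 1) (by omega) _ (le_of_lt (d1 m))
      have e : c * ((k - 1 : ℤ) : ℝ) + c = c * k := by push_cast; ring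
      rw [vt_vt _ _ (vt _ _), e, vt_neg'] at h1
      refine c1 (k - 1) (by omega) ?_
      rw [← r.injective h1, vt_neg]
      exact m
    · have h1 : (r q).1.re < -2 / 3 := (d2 m).1
      rw [r.injective (r4 _ h1)] at m
      exact c2 k (by omega) m
  exact l1.comp' (f := fun p => r (fam φ.symm c 0 p)) ((r1 _).comp l0)
    (congrArg r (fam_inv h L0 hc q))

variable {E : Type} [NormedAddCommGroup E] [NormedSpace ℝ E] {M : Type} [TopologicalSpace M]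
  [ChartedSpace E M] [T2Space M] [CompactSpace M]
  {α : M → E → ℝ} {m₀ : M} {e : H → M} {J : M → H} {D₁ D₂ : Set H}

/-- The output of the swindle. -/
def Out (α : M → E → ℝ) (m₀ : M) (e : H → M) : Prop :=
  ∃ (Ψ : M → H) (K : H ≃ H) (c C : ℝ), 0 < c ∧ Tub c C K ∧ BijOn Ψ {m₀}ᶜ univ ∧
    (∀ m ≠ m₀, LD α aH Ψ m) ∧ (∀ p : H, C ≤ p.2.2 → LH K p) ∧
    ∀ p : H, C < rho p ∨ C ≤ |p.2.2| → Ψ (e p) = K p

theorem swindle1 (h : Dat α m₀ e J D₁ D₂ L) (L1 : 1 ≤ L) (d0 : D₁ ⊆ N0)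
    (id2 : ∀ p, L < rho p → J (e p) = p) (i1 : #D₁ = #H) (i2 : #D₂ = #H)
    (j1 : #H ≤ #((e '' D₁ᶜ ∪ {m₀})ᶜ : Set M)) (j2 : #((J '' (e '' D₂ ∪ {m₀})ᶜ)ᶜ : Set H) = #H) :
    Out α m₀ e := by
  have s21 : D₂ ⊆ D₁ᶜ := h.d2.trans h.n2
  set W : Set M := (e '' D₂ ∪ {m₀})ᶜ with hW
  have oW : IsOpen W := by
    refine (IsClosed.union ?_ isClosed_singleton).isOpen_compl
    exact (h.c2.image_of_continuousOn (contOn_of_LD fun p hp => h.he p (s21 hp))).isClosed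
  have sA : (e '' D₁ᶜ ∪ {m₀})ᶜ ⊆ W := compl_subset_compl.2 (union_subset_union_left _ (image_mono s21))
  obtain ⟨e', be, ee⟩ := ext_bij (f := e) (U := D₁ᶜ) (V := D₁) (T := {m₀}ᶜ) h.ie
    (fun p hp => h.ne p hp) disjoint_compl_left (by
      have : ({m₀}ᶜ \ e '' D₁ᶜ : Set M) = (e '' D₁ᶜ ∪ {m₀})ᶜ := by
        rw [compl_union, inter_comm]; rfl
      rw [this, i1]
      refine le_antisymm j1 ?_
      rw [← mk_image_eq_of_injOn J _ (h.iJ.mono sA)]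
      exact mk_set_le _)
  obtain ⟨j', bj, ej⟩ := ext_bij (f := J) (U := W) (V := e '' D₂) (T := univ) h.iJ
    (mapsTo_univ _ _) (disjoint_left.2 fun m hm h' => hm (Or.inl h')) (by
      rw [← compl_eq_univ_sdiff, j2, mk_image_eq_of_injOn e _ (h.ie.mono s21), i2])
  rw [compl_union_self] at be
  have eW : W ∪ e '' D₂ = {m₀}ᶜ := by
    refine Subset.antisymm ?_ fun m hm => ?_
    · rintro m (hm | ⟨p, hp, rfl⟩)
      · exact fun h' => hm (Or.inr h')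
      · exact h.ne p (s21 hp)
    · by_cases h' : m ∈ e '' D₂
      · exact Or.inr h'
      · exact Or.inl fun h'' => h''.elim h' hm
  rw [eW] at bj
  let φ : H ≃ H := Equiv.ofBijective (j' ∘ e') (bijOn_univ.1 (bj.comp be))
  have eφ : ∀ p, φ p = j' (e' p) := fun _ => rfl
  have n0 : ∀ p, e' p ∈ ({m₀}ᶜ : Set M) := fun p => be.mapsTo (mem_univ p)
  have ie' : ∀ {p q}, e' p = e' q → p = q := fun hh => be.injOn (mem_univ _) (mem_univ _) hh
  have eφ' : ∀ p, p ∉ D₁ → p ∉ D₂ → φ p = J (e p) := fun p h1 h2 => by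
    rw [eφ, ee h1, ej (h.mem h1 h2)]
  have sW : W ⊆ {m₀}ᶜ := eW ▸ subset_union_left
  have s1 : N0ᶜ ⊆ D₁ᶜ := compl_subset_compl.2 d0
  have s2 : D₂ ⊆ N0ᶜ := fun p hp m => by
    have := (h.d2 hp).1
    have := (N0_t m).2.2
    linarith
  have sB : (e '' N0ᶜ ∪ {m₀})ᶜ ⊆ W :=
    compl_subset_compl.2 (union_subset_union_left _ (image_mono s2))
  have sC : (e '' N2 L)ᶜ \ {m₀} ⊆ W := fun m hm h' =>
    h'.elim (fun h'' => hm.1 (image_mono h.d2 h'')) hm.2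
  have oN : IsOpen (e '' N2 L) := isOpen_image_of_LD (open_N2 L) fun p hp => h.he p (h.n2 hp)
  obtain ⟨C, hC⟩ :=
    (h.c2.image (continuous_iff_continuousAt.2 fun p => (cd_rho p).continuousAt)).bddAbove
  have far : ∀ p : H, |C| + L < rho p ∨ L ≤ |p.2.2| → p ∉ D₁ ∧ φ p = p := fun p hp => by
    have := abs_nonneg C
    have n1 : p ∉ D₁ := fun m => hp.elim (fun a => by linarith [(N0_t (d0 m)).2.1])
      fun a => (h.d1 m).2.not_ge a
    have n2 : p ∉ D₂ := fun m => hp.elim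
      (fun a => by linarith [hC ⟨p, m, rfl⟩, le_abs_self C]) fun a => (h.d2 m).2.not_ge a
    exact ⟨n1, by rw [eφ' p n1 n2]; exact hp.elim (fun a => id2 p (by linarith)) (h.id p)⟩
  have sφ : Sup φ L := fun p hp => (far p (Or.inr hp)).2
  obtain ⟨K, c, C', c0, tK, k1, k2⟩ := swindle_K φ (L := L) (C := |C| + L) (D₁ := D₁) (D₂ := D₂)
    (O₁ := J '' (e '' N0ᶜ ∪ {m₀})ᶜ) (O₂ := (J '' ((e '' N2 L)ᶜ \ {m₀}))ᶜ)
    sφ L1 (by linarith [abs_nonneg C]) (fun p hp => (far p (Or.inl hp)).2) d0 h.d2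
    (isOpen_image_of_LD (closed_img1 open_N0.isClosed_compl
      (contOn_of_LD fun p hp => h.he p (s1 hp)) h.T1).isOpen_compl fun m hm => h.hJ m (sB hm))
    (closed_img2 oN.isClosed_compl.isCompact (contOn_of_LD fun m hm => h.hJ m (sC hm))
      h.T2).isOpen_compl
    (fun p hp => by
      have : e' p ∈ (e '' N0ᶜ ∪ {m₀})ᶜ := by
        rintro (⟨q, hq, eq⟩ | eq)
        · rw [← ee (s1 hq)] at eq
          exact s1 hq (ie' eq ▸ hp)
        · exact n0 p eq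
      exact ⟨e' p, this, (ej (sB this)).symm⟩)
    (fun p hp => by
      rintro ⟨m, hm, eq⟩
      rw [← ej (sC hm), eφ] at eq
      rw [bj.injOn hm.2 (n0 p) eq, ee (s21 hp)] at hm
      exact hm.1 ⟨p, h.d2 hp, rfl⟩)
    (fun p hp => by
      obtain ⟨m, hm, eq⟩ := hp
      rw [← ej (sB hm), eφ] at eq
      by_contra hn
      rw [bj.injOn (sW (sB hm)) (n0 p) eq, ee (s1 hn)] at hm
      exact hm (Or.inl ⟨p, hn, rfl⟩))
    (fun p hp => by
      by_contra hn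
      have : e' p ∈ (e '' N2 L)ᶜ \ {m₀} := by
        refine ⟨?_, n0 p⟩
        rintro ⟨q, hq, eq⟩
        rw [← ee (h.n2 hq)] at eq
        exact hn (ie' eq ▸ hq)
      exact hp ⟨e' p, this, (ej (sC this)).symm⟩)
    (fun p h1 h2 => by
      refine ((h.hJ _ (h.mem h1 h2)).comp (h.he p h1)).congr ?_
      filter_upwards [h.c1.isOpen_compl.mem_nhds h1, h.c2.isClosed.isOpen_compl.mem_nhds h2]
        with q a b using eφ' q a b)
  have a0 := abs_nonneg C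
  have t0 := tK.1
  refine ⟨fun m => K (j' m), K, c, C' + (|C| + L), c0, tK.mono (by linarith),
    K.bijective.bijOn_univ.comp bj, fun m hm => ?_, fun p hp => ?_, fun p hp => ?_⟩
  · by_cases hm' : m ∈ e '' N2 L
    · obtain ⟨p, hp, rfl⟩ := hm'
      refine (h.he p (h.n2 hp)).symm ?_
      filter_upwards [(open_N2 L).mem_nhds hp] with q hq
      rw [← ee (h.n2 hq), ← eφ, k2 q hq]
    · have mW : m ∈ W := sC ⟨hm', hm⟩
      have ev : j' =ᶠ[𝓝 m] J := by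
        filter_upwards [oW.mem_nhds mW] with x hx using ej hx
      refine (k1 _ fun h2 => ?_).comp ((h.hJ m mW).congr ev)
      have e1 : j' (e' (φ.symm (j' m))) = j' m := φ.apply_symm_apply _
      have e2 := bj.injOn (n0 _) hm e1
      rw [ee (s21 h2)] at e2
      exact hm' ⟨_, h.d2 h2, e2⟩
  · have a : L ≤ |p.2.2| := by linarith [le_abs_self p.2.2]
    exact k1 p (by rw [fix_symm (sφ p a)]; exact fun m => (h.d2 m).2.not_ge a)
  · obtain ⟨a, b⟩ := far p (hp.imp (fun a => by linarith) fun a => by linarith)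
    change K (j' (e p)) = K p
    rw [← ee a, ← eφ, b]

theorem swindle (h : Dat α m₀ e J {p | gau p ≤ 1 / 300} D₂ L) (L1 : 1 ≤ L)
    (id2 : ∀ p, L < rho p → J (e p) = p) : Out α m₀ e := by
  have L0 := h.L0
  have bl : ∀ p : H, p ∈ closedBall (((-1 : ℝ), 0, L + 1) : H) (1 / 10) →
      |p.1.re - (-1)| ≤ 1 / 10 ∧ L ≤ |p.2.2| ∧ |p.2.2| < L + 2 := by
    intro p hp
    rw [mem_closedBall, Prod.dist_eq, Prod.dist_eq, max_le_iff, max_le_iff, Real.dist_eq,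
      abs_le] at hp
    refine ⟨?_, le_abs.2 (Or.inl (by linarith [hp.2.2.1])), abs_lt.2 ⟨by linarith [hp.2.2.1],
      by linarith [hp.2.2.2]⟩⟩
    have := (Complex.abs_re_le_norm (p.1 - (-1 : ℝ))).trans (dist_eq_norm p.1 (-1 : ℝ) ▸ hp.1)
    simpa using this
  set D₁ : Set H := {p | gau p ≤ 1 / 300}
  set D : Set H := {p | gau p ≤ 1 / 200}
  set B₁ : Set H := {p | 1 / 300 < gau p ∧ gau p < 1 / 200}
  set B₂ := closedBall ((((-1 : ℝ) : ℂ), 0, L + 1) : H) (1 / 10)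
  have n1 : ∀ p : H, L ≤ |p.2.2| → p ∉ D₁ := fun p hp m => (h.d1 m).2.not_ge hp
  have n2 : ∀ p : H, L ≤ |p.2.2| → p ∉ D₂ := fun p hp m => (h.d2 m).2.not_ge hp
  have s1 : Dᶜ ⊆ D₁ᶜ := compl_subset_compl.2 fun p (hp : gau p ≤ _) => show gau p ≤ _ by linarith
  have s2 : (e '' (D₂ ∪ B₂) ∪ {m₀})ᶜ ⊆ (e '' D₂ ∪ {m₀})ᶜ :=
    compl_subset_compl.2 (union_subset_union_left _ (image_mono subset_union_left))
  have b1 : B₁ ∈ 𝓝 ((0, 0, 1 / 16) : H) := ((isOpen_lt continuous_const cont_gau).inter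
    (isOpen_lt cont_gau continuous_const)).mem_nhds (by constructor <;> norm_num [gau, rho])
  have b2 : B₂ ∈ 𝓝 _ := closedBall_mem_nhds _ (by norm_num)
  have d0 : D ⊆ N0 := fun p (hp : gau p ≤ _) => show gau p < _ by linarith
  have h' : Dat α m₀ e J D (D₂ ∪ B₂) (L + 2) :=
    ⟨by linarith, (cpt_gau _).isClosed, h.c2.union (isCompact_closedBall _ _),
      fun p hp => ⟨(N0_t (d0 hp)).2.2, by linarith [(N0_t (d0 hp)).1]⟩,
      union_subset (fun p hp => ⟨(h.d2 hp).1, by linarith [(h.d2 hp).2]⟩) fun p hp =>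
        ⟨by linarith [(abs_le.1 (bl p hp).1).2], (bl p hp).2.2⟩,
      fun p hp => h.he p (s1 hp), h.ie.mono s1, fun p hp => h.ne p (s1 hp),
      fun m hm => h.hJ m (s2 hm), h.iJ.mono s2, fun p hp => h.id p (by linarith), h.T1, h.T2⟩
  refine swindle1 h' (by linarith) d0 (fun p hp => id2 p (by linarith))
    (cardinal_eq_of_mem_nhds ℝ (mem_of_superset b1 fun p hp => hp.2.le))
    (cardinal_eq_of_mem_nhds ℝ (mem_of_superset b2 subset_union_right)) ?_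
    (cardinal_eq_of_mem_nhds ℝ (mem_of_superset b2 ?_))
  · have s : B₁ ⊆ D₁ᶜ := fun p hp => hp.1.not_ge
    rw [← cardinal_eq_of_mem_nhds ℝ b1, ← mk_image_eq_of_injOn e _ (h.ie.mono s)]
    refine mk_le_mk_of_subset ?_
    rintro _ ⟨p, hp, rfl⟩ (⟨q, hq, eq⟩ | eq)
    · exact hq (h.ie (s1 hq) (s hp) eq ▸ hp.2.le)
    · exact h.ne p (s hp) eq
  · rintro p hp ⟨m, hm, eq⟩
    have hL := (bl p hp).2.1
    rw [← h.id p hL] at eq
    exact hm (Or.inl ⟨p, Or.inr hp, (h.iJ (s2 hm) (h.mem (n1 p hL) (n2 p hL)) eq).symm⟩)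

end
end Pool.Agent.Lib.MP_efe47c_gt.C
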