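import Pool.Agent.Lib.MP_efe47c_gt.Main

/-! Contact maps of the Heisenberg group that reparametrise the vertical axis. -/

namespace Pool.Agent.Lib.MP_efe47c_gt.C
open Set Filter Topology Complex Function
open scoped ContDiff ComplexConjugate

noncomputable section

/-- Smooth with positive derivative. -/
def Inc (χ : ℝ → ℝ) : Prop := ContDiff ℝ ∞ χ ∧ ∀ s, 0 < deriv χ s

def la (χ : ℝ → ℝ) (s : ℝ) : ℝ := √(deriv χ s)

def Th (χ : ℝ → ℝ) : H → H := sc (fun q => (la χ q.2.2 : ℂ)) fun q => χ q.2.2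

variable {χ : ℝ → ℝ} {p q : H}

theorem Inc.mono (h : Inc χ) : StrictMono χ := strictMono_of_deriv_pos h.2

theorem Inc.la_pos (h : Inc χ) (s : ℝ) : 0 < la χ s := Real.sqrt_pos.2 (h.2 s)

theorem Inc.la_sq (h : Inc χ) (s : ℝ) : la χ s ^ 2 = deriv χ s := Real.sq_sqrt (h.2 s).le

theorem Inc.cd_la (h : Inc χ) (s : ℝ) : ContDiffAt ℝ ∞ (la χ) s :=
  (cd_deriv h.1).contDiffAt.sqrt (h.2 s).ne'

theorem Inc.hd (h : Inc χ) (s : ℝ) : HasDerivAt χ (deriv χ s) s :=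
  (cd_diff h.1.contDiffAt).hasDerivAt

theorem Inc.hd_la (h : Inc χ) (s : ℝ) :
    HasDerivAt (la χ) (deriv (deriv χ) s / (2 * la χ s)) s :=
  (cd_diff (cd_deriv h.1).contDiffAt).hasDerivAt.sqrt (h.2 s).ne'

@[simp] theorem Th_t (χ : ℝ → ℝ) (p : H) : (Th χ p).2.2 = χ p.2.2 := rfl

theorem Inc.rho_Th (h : Inc χ) (p : H) : rho (Th χ p) = deriv χ p.2.2 * rho p := by
  rw [Th, rho_sc, normSq_ofReal, ← sq, h.la_sq]

theorem Inc.c1 (h : Inc χ) (p : H) : ContDiffAt ℝ ∞ (fun q : H => (la χ q.2.2 : ℂ)) p :=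
  cd_of ((h.cd_la _).comp p (cd3 p))

theorem Inc.c2 (h : Inc χ) (p : H) : ContDiffAt ℝ ∞ (fun q : H => χ q.2.2) p :=
  h.1.contDiffAt.comp p (cd3 p)

theorem Inc.cd_Th (h : Inc χ) (p : H) : ContDiffAt ℝ ∞ (Th χ) p := cd_sc (h.c1 p) (h.c2 p)

theorem Inc.inj (h : Inc χ) : Injective (Th χ) := fun p q e => by
  have e3 : p.2.2 = q.2.2 := h.mono.injective (congrArg (fun x : H => x.2.2) e)
  have n : (la χ q.2.2 : ℂ) ≠ 0 := ofReal_ne_zero.2 (h.la_pos _).ne'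
  have e1 : (la χ p.2.2 : ℂ) * p.1 = la χ q.2.2 * q.1 := congrArg (fun x : H => x.1) e
  have e2 : (la χ p.2.2 : ℂ) * p.2.1 = la χ q.2.2 * q.2.1 := congrArg (fun x : H => x.2.1) e
  rw [e3] at e1 e2
  exact Prod.ext (mul_left_cancel₀ n e1) (Prod.ext (mul_left_cancel₀ n e2) e3)

theorem Inc.range (h : Inc χ) {s : ℝ} (e : χ s = q.2.2) : ∃ p, Th χ p = q := by
  have n : (la χ s : ℂ) ≠ 0 := ofReal_ne_zero.2 (h.la_pos _).ne'
  exact ⟨(q.1 / la χ s, q.2.1 / la χ s, s), Prod.ext (mul_div_cancel₀ _ n)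
    (Prod.ext (mul_div_cancel₀ _ n) e)⟩

theorem Inc.d1 (h : Inc χ) (p v : H) : HasDerivAt (fun s : ℝ => (la χ (p + s • v).2.2 : ℂ))
    ((deriv (deriv χ) p.2.2 / (2 * la χ p.2.2) * v.2.2 : ℝ) : ℂ) 0 :=
  (HasDerivAt.comp_of_eq (0 : ℝ) (h.hd_la p.2.2) (hd3 p v) (by simp)).ofReal_comp

theorem Inc.d2 (h : Inc χ) (p v : H) :
    HasDerivAt (fun s : ℝ => χ (p + s • v).2.2) (deriv χ p.2.2 * v.2.2) 0 :=
  HasDerivAt.comp_of_eq (0 : ℝ) (h.hd p.2.2) (hd3 p v) (by simp)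

theorem Inc.fd (h : Inc χ) (p v : H) : fderiv ℝ (Th χ) p v =
    (((deriv (deriv χ) p.2.2 / (2 * la χ p.2.2) * v.2.2 : ℝ) : ℂ) * p.1 + la χ p.2.2 * v.1,
      ((deriv (deriv χ) p.2.2 / (2 * la χ p.2.2) * v.2.2 : ℝ) : ℂ) * p.2.1 + la χ p.2.2 * v.2.1,
      deriv χ p.2.2 * v.2.2) := by
  have e := ((h.d1 p v).mul (hd1 p v)).prodMk (((h.d1 p v).mul (hd2 p v)).prodMk (h.d2 p v))
  rw [fd_line (h.cd_Th p) e]
  simp only [zero_smul, add_zero]

theorem Inc.lh (h : Inc χ) (p : H) : LH (Th χ) p := by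
  have h0 : ContDiffAt ℝ ∞ χ p.2.2 := h.1.contDiffAt
  have h1 := (h.hd p.2.2).hasFDerivAt_equiv (h.2 _).ne'
  have n0 : (∞ : WithTop ℕ∞) ≠ 0 := by simp
  set w := h0.localInverse h1 n0
  have cw : ContDiffAt ℝ ∞ w (χ p.2.2) := h0.to_localInverse h1 n0
  have l : ∀ᶠ s in 𝓝 p.2.2, w (χ s) = s := (h0.toOpenPartialHomeomorph χ h1 n0).eventually_left_inverse
    (h0.mem_toOpenPartialHomeomorph_source h1 n0)
  have r : ∀ᶠ s in 𝓝 (χ p.2.2), χ (w s) = s :=
    (h0.toOpenPartialHomeomorph χ h1 n0).eventually_right_inverse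
      (h0.image_mem_toOpenPartialHomeomorph_target h1 n0)
  have n : ∀ s, (la χ s : ℂ) ≠ 0 := fun s => ofReal_ne_zero.2 (h.la_pos _).ne'
  have c3 : ContDiffAt ℝ ∞ (fun q : H => w q.2.2) (Th χ p) := cw.comp (Th χ p) (cd3 _)
  refine LD.of_vec (g := sc (fun q => 1 / (la χ (w q.2.2) : ℂ)) fun q => w q.2.2) (h.cd_Th p)
    (cd_sc (cd_div contDiffAt_const (cd_of ((h.cd_la _).comp _ c3)) (n _)) c3) ?_ ?_ (h.2 p.2.2)
    fun v => ?_
  · filter_upwards [(cd3 p).continuousAt.eventually l] with q hq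
    have := n q.2.2
    refine Prod.ext ?_ (Prod.ext ?_ hq)
    · change 1 / (la χ (w (χ q.2.2)) : ℂ) * (la χ q.2.2 * q.1) = q.1
      rw [hq]; field_simp
    · change 1 / (la χ (w (χ q.2.2)) : ℂ) * (la χ q.2.2 * q.2.1) = q.2.1
      rw [hq]; field_simp
  · filter_upwards [(cd3 (Th χ p)).continuousAt.eventually r] with q hq
    have := n (w q.2.2)
    refine Prod.ext ?_ (Prod.ext ?_ hq)
    · change (la χ (w q.2.2) : ℂ) * (1 / la χ (w q.2.2) * q.1) = q.1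
      field_simp
    · change (la χ (w q.2.2) : ℂ) * (1 / la χ (w q.2.2) * q.2.1) = q.2.1
      field_simp
  · have e : normSq (la χ p.2.2 : ℂ) = deriv χ p.2.2 := by rw [normSq_ofReal, ← sq, h.la_sq]
    rw [← e]
    refine aH_sc (h.c1 p) (h.c2 p) (h.d1 p v) (h.d2 p v) ?_
    rw [e, conj_ofReal, ← ofReal_mul, ofReal_im, mul_zero, add_zero]

theorem Th_vt {a : ℝ} (e : ∀ᶠ s in 𝓝 p.2.2, χ s = s + a) : Th χ p = vt a p := by
  have e1 : deriv χ p.2.2 = 1 := by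
    rw [EventuallyEq.deriv_eq (f := fun s => s + a) e]; simp
  simp [Th, sc, vt, la, e1, e.self_of_nhds]

theorem Th_id (e : ∀ᶠ s in 𝓝 p.2.2, χ s = s) : Th χ p = p := by
  rw [Th_vt (a := 0) (by simpa using e), vt_zero]

/-- A contact map which is the identity below a level and a translation above a higher one. -/
theorem exists_step {s₁ s₂ a : ℝ} (h : s₁ < s₂) (a0 : 0 ≤ a) :
    ∃ W : H ≃ H, (∀ p, LH W p) ∧ (∀ p : H, p.2.2 < s₁ → W p = p) ∧
      ∀ p : H, s₂ < p.2.2 → W p = vt a p := by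
  have d0 : 0 < s₂ - s₁ := sub_pos.2 h
  set β : ℝ → ℝ := fun s => Real.smoothTransition ((s - s₁) / (s₂ - s₁)) with hβ
  have cβ : ContDiff ℝ ∞ β :=
    Real.smoothTransition.contDiff.comp ((contDiff_id.sub contDiff_const).div_const _)
  have mβ : Monotone β := Real.smoothTransition.monotone.comp fun a b h =>
    div_le_div_of_nonneg_right (sub_le_sub_right h _) d0.le
  have β0 : ∀ s ≤ s₁, β s = 0 := fun s hs =>
    Real.smoothTransition.zero_of_nonpos (div_nonpos_of_nonpos_of_nonneg (sub_nonpos.2 hs) d0.le)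
  have β1 : ∀ s, s₂ ≤ s → β s = 1 := fun s hs =>
    Real.smoothTransition.one_of_one_le ((one_le_div d0).2 (sub_le_sub_right hs _))
  set f : ℝ → ℝ := fun s => s + a * β s with hf
  have cf : ContDiff ℝ ∞ f := contDiff_id.add (contDiff_const.mul cβ)
  have inc : Inc f := ⟨cf, fun s => by
    have df : HasDerivAt f (1 + a * deriv β s) s :=
      (hasDerivAt_id s).add ((cd_diff cβ.contDiffAt).hasDerivAt.const_mul a)
    rw [df.deriv]
    have := mul_nonneg a0 (mβ.deriv_nonneg (x := s))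
    linarith⟩
  have sf : Surjective f := by
    refine cf.continuous.surjective ?_ ?_
    · refine tendsto_atTop_mono (fun s => ?_) tendsto_id
      have := mul_nonneg a0 (Real.smoothTransition.nonneg ((s - s₁) / (s₂ - s₁)))
      simp only [hf, hβ, id]; linarith
    · refine tendsto_atBot_mono (fun s => ?_) (tendsto_atBot_add_const_right _ a tendsto_id)
      have := mul_le_of_le_one_right a0 (Real.smoothTransition.le_one ((s - s₁) / (s₂ - s₁)))
      simp only [hf, hβ, id]; linarith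
  refine ⟨Equiv.ofBijective (Th f) ⟨inc.inj, fun q => ?_⟩, inc.lh, fun p hp => ?_, fun p hp => ?_⟩
  · obtain ⟨s, hs⟩ := sf q.2.2
    exact inc.range hs
  · exact Th_id ((eventually_lt_nhds hp).mono fun s hs => by simp [hf, β0 s hs.le])
  · exact Th_vt ((eventually_gt_nhds hp).mono fun s hs => by simp [hf, β1 s hs.le])

end
end Pool.Agent.Lib.MP_efe47c_gt.C
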