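import Pool.Agent.Lib.MP_efe47c_gt.C.Fin

/-! A summand of the standard sphere is standard as a topological contact manifold. -/

namespace Pool.Agent.Lib.MP_efe47c_gt.C
open Set Filter Topology Metric Function Complex
open scoped ContDiff Manifold ComplexConjugate

noncomputable section

variable {M : Type} [TopologicalSpace M] [ChartedSpace R5 M]

theorem piece_top [T2Space M] [CompactSpace M] {α : Form R5 M} {ε : ℝ}
    {e : PD R5 S5 M} {j : PD R5 M S5}
    (e0 : 0 < ε) (e1 : ε < 1) (h : Piece std (fun p => ((p : C3) 0).re) ε α std e j) :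
    TopStd α := by
  obtain ⟨he, hj, se, sj⟩ := h
  set e' : H → M := fun h => e (kap U0 h) with he'
  have ms : ∀ h, gau h < 1 + ε → kap U0 h ∈ e.source := fun h hh => se ▸ kap_in e0 hh
  have le : ∀ h, gau h < 1 + ε → LD aH (fn α) e' h := fun h hh => (he.ld (ms h hh)).comp (LD_kap h)
  have ie : InjOn e' {h | gau h < 1 + ε} := fun p hp q hq h =>
    LeftInverse.injective cay_kap (e.injOn (ms p hp) (ms q hq) h)
  have oB : IsOpen (e' '' {h | gau h < 1 - ε / 2}) :=
    isOpen_image_of_LD (isOpen_lt cont_gau continuous_const) fun h (hh : gau h < _) =>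
      le h (by linarith)
  have sK : (e' '' {h | gau h < 1 - ε / 2})ᶜ ⊆ j.source := by
    rw [sj]
    refine compl_subset_compl.2 ?_
    rintro _ ⟨p, hp, rfl⟩
    have hp' : ε ≤ ((p : C3) 0).re := hp
    have k := kap_cay (ne_pole (p := p) (by linarith))
    refine ⟨cay U0 p, ?_, congrArg e k⟩
    have := kap_out e0 (h := cay U0 p) (k.symm ▸ hp')
    change gau _ < _
    linarith
  obtain ⟨h₁, g₁⟩ : ∃ h₁ : H, gau h₁ = 1 - 3 * ε / 4 :=
    ⟨(0, 0, √(1 - 3 * ε / 4)), by simp [gau, rho, Real.sq_sqrt (show 0 ≤ 1 - 3 * ε / 4 by linarith)]⟩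
  have m₁ : e' h₁ ∈ j.source := by
    rw [sj]
    rintro ⟨p, hp, eq⟩
    have hp' : ε ≤ ((p : C3) 0).re := hp
    rw [e.injOn (se ▸ (show -ε < ((p : C3) 0).re by linarith)) (ms h₁ (by linarith)) eq] at hp'
    linarith [kap_out e0 hp']
  obtain ⟨U, hU⟩ := exists_pole (j (e' h₁))
  have nK : ∀ m ∈ (e' '' {h | gau h < 1 - ε / 2})ᶜ, j m ≠ pole U := fun m hm eq =>
    hm ⟨h₁, show gau h₁ < _ by linarith, (j.injOn (sK hm) m₁ (eq.trans hU)).symm⟩
  have lJ : ∀ m ∈ (e' '' {h | gau h < 1 - ε / 2})ᶜ, LD (fn α) aH (fun m => cay U (j m)) m :=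
    fun m hm => (LD_cay (nK m hm)).comp (hj.ld (sK hm))
  have sW : (e' '' {h | gau h ≤ 1 - ε / 2})ᶜ ⊆ (e' '' {h | gau h < 1 - ε / 2})ᶜ :=
    compl_subset_compl.2 (image_mono fun h (hh : gau h < _) => hh.le)
  refine fin (b₀ := 1 + ε) (by linarith) he ms (core (a := 1 - ε / 2) (b := 1 + ε) (J := fun m => cay U (j m))
    (by linarith) (by linarith) (by linarith) le ie (fun m hm => lJ m (sW hm))
    (fun m hm m' hm' eq => j.injOn (sK (sW hm)) (sK (sW hm')) (by
      rw [← kap_cay (nK m (sW hm)), ← kap_cay (nK m' (sW hm'))]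
      exact congrArg (kap U) eq))
    (oB.isClosed_compl.isCompact.image_of_continuousOn (contOn_of_LD lJ))
    (fun m hm => mem_image_of_mem _ (sW hm)))

end
end Pool.Agent.Lib.MP_efe47c_gt.C
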